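import Pool.Agent.StrA.MeanBasic

/-! STRUCTURE (helper37): modules GNS, GNR. -/

set_option autoImplicit false

namespace Pool.Agent.StrA

open Finset Filter Topology

private theorem GNS_add {f g : ℤ → ℂ} (hf : BddC f) (hg : BddC g) : BddC fun x => f x + g x := by
  obtain ⟨C, hC⟩ := hf
  obtain ⟨D, hD⟩ := hg
  exact ⟨C + D, fun x => (norm_add_le _ _).trans (add_le_add (hC x) (hD x))⟩

private theorem GNS_mul {f g : ℤ → ℂ} (hf : BddC f) (hg : BddC g) : BddC fun x => f x * g x := by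
  obtain ⟨C, hC⟩ := hf
  obtain ⟨D, hD⟩ := hg
  exact ⟨C * D, fun x => by
    rw [norm_mul]
    exact mul_le_mul (hC x) (hD x) (norm_nonneg _) ((norm_nonneg _).trans (hC x))⟩

private theorem GNS_conj {f : ℤ → ℂ} (hf : BddC f) : BddC fun x => (starRingEnd ℂ) (f x) := by
  obtain ⟨C, hC⟩ := hf
  exact ⟨C, fun x => by rw [RCLike.norm_conj]; exact hC x⟩

private theorem GNS_const (c : ℂ) : BddC fun _ => c := ⟨‖c‖, fun _ => le_rfl⟩

private theorem GNS_shift {f : ℤ → ℂ} (hf : BddC f) (n : ℤ) : BddC fun x => f (x - n) := by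
  obtain ⟨C, hC⟩ := hf
  exact ⟨C, fun x => hC _⟩

private theorem GNS_re {f : ℤ → ℂ} (hf : BddC f) : Bdd fun x => (f x).re := by
  obtain ⟨C, hC⟩ := hf
  exact ⟨C, fun x => (Complex.abs_re_le_norm _).trans (hC x)⟩

private theorem GNS_im {f : ℤ → ℂ} (hf : BddC f) : Bdd fun x => (f x).im := by
  obtain ⟨C, hC⟩ := hf
  exact ⟨C, fun x => (Complex.abs_im_le_norm _).trans (hC x)⟩

private theorem GNS_cadd (M : Mean) {f g : ℤ → ℂ} (hf : BddC f) (hg : BddC g) :
    M.c (fun x => f x + g x) = M.c f + M.c g := by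
  unfold Mean.c
  have h1 : (fun x => (f x + g x).re) = fun x => (f x).re + (g x).re := rfl
  have h2 : (fun x => (f x + g x).im) = fun x => (f x).im + (g x).im := rfl
  rw [h1, h2, M.add' _ _ (GNS_re hf) (GNS_re hg), M.add' _ _ (GNS_im hf) (GNS_im hg)]
  push_cast
  ring

private theorem GNS_csmul (M : Mean) (c : ℂ) {f : ℤ → ℂ} (hf : BddC f) :
    M.c (fun x => c * f x) = c * M.c f := by
  unfold Mean.c
  have h1 : (fun x => (c * f x).re) = fun x => c.re * (f x).re + (-c.im) * (f x).im := by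
    funext x; rw [Complex.mul_re]; ring
  have h2 : (fun x => (c * f x).im) = fun x => c.re * (f x).im + c.im * (f x).re := by
    funext x; rw [Complex.mul_im]
  rw [h1, h2, M.add' _ _ ((GNS_re hf).smul _) ((GNS_im hf).smul _), M.add' _ _ ((GNS_im hf).smul _) ((GNS_re hf).smul _),
    M.smul' _ _ (GNS_re hf), M.smul' _ _ (GNS_im hf), M.smul' _ _ (GNS_im hf), M.smul' _ _ (GNS_re hf)]
  apply Complex.ext
  · simp
    ring
  · simp

private theorem GNS_cconj (M : Mean) {f : ℤ → ℂ} (hf : BddC f) :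
    M.c (fun x => (starRingEnd ℂ) (f x)) = (starRingEnd ℂ) (M.c f) := by
  unfold Mean.c
  have h1 : (fun x => ((starRingEnd ℂ) (f x)).re) = fun x => (f x).re := rfl
  have h2 : (fun x => ((starRingEnd ℂ) (f x)).im) = fun x => (-1) * (f x).im := by
    funext x; rw [Complex.conj_im]; ring
  rw [h1, h2, M.smul' _ _ (GNS_im hf)]
  apply Complex.ext
  · simp
  · simp

/-- the bounded functions -/
private def GNS_sub : Submodule ℂ (ℤ → ℂ) where
  carrier := {f | BddC f}
  add_mem' := fun hf hg => GNS_add hf hg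
  zero_mem' := GNS_const 0
  smul_mem' := fun c _ hf => GNS_mul (GNS_const c) hf

private def GNS_V (_ : Mean) : Type := GNS_sub

private noncomputable instance GNS_i1 (M : Mean) : AddCommGroup (GNS_V M) := inferInstanceAs (AddCommGroup GNS_sub)
private noncomputable instance GNS_i2 (M : Mean) : Module ℂ (GNS_V M) := inferInstanceAs (Module ℂ GNS_sub)

private def GNS_mk (M : Mean) (f : ℤ → ℂ) (hf : BddC f) : GNS_V M := ⟨f, hf⟩
private def GNS_fn (M : Mean) (v : GNS_V M) : ℤ → ℂ := v.1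
private theorem GNS_bdd (M : Mean) (v : GNS_V M) : BddC (GNS_fn M v) := v.2

private theorem GNS_ext (M : Mean) {v w : GNS_V M} (h : ∀ x, GNS_fn M v x = GNS_fn M w x) : v = w :=
  Subtype.ext (funext h)

private theorem GNS_fn_add (M : Mean) (v w : GNS_V M) (x : ℤ) : GNS_fn M (v + w) x = GNS_fn M v x + GNS_fn M w x := rfl
private theorem GNS_fn_smul (M : Mean) (c : ℂ) (w : GNS_V M) (x : ℤ) : GNS_fn M (c • w) x = c * GNS_fn M w x := rfl

private noncomputable def GNS_core (M : Mean) : PreInnerProductSpace.Core ℂ (GNS_V M) where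
  inner f g := M.c (fun x => (starRingEnd ℂ) (GNS_fn M f x) * GNS_fn M g x)
  conj_inner_symm f g := by
    rw [← GNS_cconj M (GNS_mul (GNS_conj (GNS_bdd M g)) (GNS_bdd M f))]
    congr 1
    funext x
    simp [mul_comm]
  re_inner_nonneg f := by
    have h1 : (fun x => ((starRingEnd ℂ) (GNS_fn M f x) * GNS_fn M f x).re) = fun x => ‖GNS_fn M f x‖ ^ 2 := by
      funext x
      rw [mul_comm, Complex.mul_conj, Complex.normSq_eq_norm_sq]
      exact Complex.ofReal_re _
    have h2 : (M.c (fun x => (starRingEnd ℂ) (GNS_fn M f x) * GNS_fn M f x)).re = M.m fun x => ‖GNS_fn M f x‖ ^ 2 := by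
      unfold Mean.c
      rw [h1]
      simp
    show 0 ≤ (M.c (fun x => (starRingEnd ℂ) (GNS_fn M f x) * GNS_fn M f x)).re
    rw [h2]
    refine M.nonneg' _ ?_ fun x => sq_nonneg _
    rw [← h1]
    exact GNS_re (GNS_mul (GNS_conj (GNS_bdd M f)) (GNS_bdd M f))
  add_left f g h := by
    rw [← GNS_cadd M (GNS_mul (GNS_conj (GNS_bdd M f)) (GNS_bdd M h)) (GNS_mul (GNS_conj (GNS_bdd M g)) (GNS_bdd M h))]
    congr 1
    funext x
    rw [GNS_fn_add, map_add, add_mul]
  smul_left f g c := by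
    rw [← GNS_csmul M _ (GNS_mul (GNS_conj (GNS_bdd M f)) (GNS_bdd M g))]
    congr 1
    funext x
    rw [GNS_fn_smul, map_mul, mul_assoc]

private noncomputable instance GNS_i3 (M : Mean) : SeminormedAddCommGroup (GNS_V M) :=
  InnerProductSpace.Core.toSeminormedAddCommGroup (c := GNS_core M)
private noncomputable instance GNS_i4 (M : Mean) : InnerProductSpace ℂ (GNS_V M) :=
  InnerProductSpace.ofCore (GNS_core M)

private theorem GNS_inner (M : Mean) (f g : GNS_V M) :
    inner ℂ f g = M.c (fun x => (starRingEnd ℂ) (GNS_fn M f x) * GNS_fn M g x) := rfl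

private theorem GNS_cshift (M : Mean) (p : ℤ) (hp : M.Inv p) {f : ℤ → ℂ} (hf : BddC f) :
    M.c (fun x => f (x - p)) = M.c f := by
  unfold Mean.c
  rw [hp (fun x => (f x).re) (GNS_re hf), hp (fun x => (f x).im) (GNS_im hf)]

/-- the shift on V -/
private noncomputable def GNS_S (M : Mean) (p : ℤ) : GNS_V M →ₗ[ℂ] GNS_V M where
  toFun v := GNS_mk M (fun x => GNS_fn M v (x - p)) (GNS_shift (GNS_bdd M v) p)
  map_add' v w := rfl
  map_smul' c v := rfl

private theorem GNS_S_norm (M : Mean) (p : ℤ) (hp : M.Inv p) (v : GNS_V M) : ‖GNS_S M p v‖ = ‖v‖ := by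
  have h1 : ‖GNS_S M p v‖ ^ 2 = ‖v‖ ^ 2 := by
    rw [← inner_self_eq_norm_sq (𝕜 := ℂ), ← inner_self_eq_norm_sq (𝕜 := ℂ), GNS_inner, GNS_inner]
    congr 1
    exact GNS_cshift M p hp (GNS_mul (GNS_conj (GNS_bdd M v)) (GNS_bdd M v))
  exact (sq_eq_sq₀ (norm_nonneg _) (norm_nonneg _)).1 h1

private noncomputable def GNS_SL (M : Mean) (p : ℤ) (hp : M.Inv p) : GNS_V M →L[ℂ] GNS_V M :=
  (GNS_S M p).mkContinuous 1 fun v => by rw [GNS_S_norm M p hp, one_mul]

/-- GNS.  The Hilbert space of a mean.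
PROOF: `V := {f : ℤ → ℂ // BddC f}` (a ℂ-submodule of `ℤ → ℂ`), positive semidefinite form `⟪f, g⟫ = M.c (conj f * g)`
(`PreInnerProductSpace.Core`, gives a seminormed space), `H := UniformSpace.Completion V` (a Hilbert space:
`Mathlib/Analysis/InnerProductSpace/Completion.lean`), `ι f := if h : BddC f then ↑⟨f, h⟩ else 0`; the shift by `p` is a
linear isometry of `V` onto `V` (because `M.Inv p`), it extends to the completion (`LinearIsometry.extend` / `mapCompletion`),
its inverse is the extension of the shift by `-p`. -/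
theorem exists_rep (M : Mean) (p : ℤ) (hp : M.Inv p) :
    ∃ (H : Type) (_ : NormedAddCommGroup H) (_ : InnerProductSpace ℂ H) (_ : CompleteSpace H), Nonempty (Rep M p H) := by
  classical
  have hp' : M.Inv (-p) := by
    have := Mean.Inv.mul M hp (-1)
    rwa [neg_one_mul] at this
  refine ⟨UniformSpace.Completion (GNS_V M), inferInstance, inferInstance, inferInstance, ?_⟩
  have hn : ∀ (q : ℤ) (hq : M.Inv q) (v : UniformSpace.Completion (GNS_V M)),
      ‖(GNS_SL M q hq).completion v‖ = ‖v‖ := by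
    intro q hq v
    induction v using UniformSpace.Completion.induction_on with
    | hp => exact isClosed_eq (by fun_prop) (by fun_prop)
    | ih a =>
      rw [ContinuousLinearMap.completion_apply_coe, UniformSpace.Completion.norm_coe, UniformSpace.Completion.norm_coe]
      exact GNS_S_norm M q hq a
  have hc : ∀ (q r : ℤ) (hq : M.Inv q) (hr : M.Inv r) (_ : q + r = 0) (v : UniformSpace.Completion (GNS_V M)),
      (GNS_SL M q hq).completion ((GNS_SL M r hr).completion v) = v := by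
    intro q r hq hr hqr v
    induction v using UniformSpace.Completion.induction_on with
    | hp => exact isClosed_eq (by fun_prop) (by fun_prop)
    | ih a =>
      rw [ContinuousLinearMap.completion_apply_coe, ContinuousLinearMap.completion_apply_coe]
      congr 1
      apply GNS_ext M
      intro x
      show GNS_fn M a (x - q - r) = _
      congr 1
      omega
  let T : UniformSpace.Completion (GNS_V M) ≃ₗᵢ[ℂ] UniformSpace.Completion (GNS_V M) :=
    { toLinearEquiv := LinearEquiv.ofLinear ((GNS_SL M p hp).completion : _ →ₗ[ℂ] _)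
        ((GNS_SL M (-p) hp').completion : _ →ₗ[ℂ] _)
        (LinearMap.ext fun v => hc p (-p) hp hp' (by ring) v) (LinearMap.ext fun v => hc (-p) p hp' hp (by ring) v)
      norm_map' := fun v => hn p hp v }
  have hT : ∀ v : GNS_V M, T (v : UniformSpace.Completion (GNS_V M)) = ((GNS_S M p v : GNS_V M) :
      UniformSpace.Completion (GNS_V M)) := by
    intro v
    exact ContinuousLinearMap.completion_apply_coe (GNS_SL M p hp) v
  refine ⟨{
    ι := fun f => if h : BddC f then ((GNS_mk M f h : GNS_V M) : UniformSpace.Completion (GNS_V M)) else 0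
    T := T
    add := ?_
    smul := ?_
    inn := ?_
    shift := ?_
    dense := ?_ }⟩
  · intro f g hf hg
    rw [dif_pos hf, dif_pos hg, dif_pos (GNS_add hf hg), ← UniformSpace.Completion.coe_add]
    rfl
  · intro c f hf
    rw [dif_pos hf, dif_pos (GNS_mul (GNS_const c) hf), ← UniformSpace.Completion.coe_smul]
    rfl
  · intro f g hf hg
    rw [dif_pos hf, dif_pos hg, UniformSpace.Completion.inner_coe]
    rfl
  · intro f hf
    rw [dif_pos hf, dif_pos (GNS_shift hf p), hT]
    rfl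
  · intro v ε hε
    have h1 := (UniformSpace.Completion.denseRange_coe (α := GNS_V M)).exists_dist_lt v hε
    obtain ⟨a, ha⟩ := h1
    refine ⟨GNS_fn M a, GNS_bdd M a, ?_⟩
    rw [dif_pos (GNS_bdd M a), ← dist_eq_norm]
    exact ha

variable {M : Mean} {p : ℤ} {H : Type} [NormedAddCommGroup H] [InnerProductSpace ℂ H] (R : Rep M p H)

private theorem gnr_bddC_add {f g : ℤ → ℂ} (hf : BddC f) (hg : BddC g) : BddC fun x => f x + g x := by
  obtain ⟨C, hC⟩ := hf
  obtain ⟨D, hD⟩ := hg
  exact ⟨C + D, fun x => (norm_add_le _ _).trans (add_le_add (hC x) (hD x))⟩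

private theorem gnr_bddC_smul {f : ℤ → ℂ} (c : ℂ) (hf : BddC f) : BddC fun x => c * f x := by
  obtain ⟨C, hC⟩ := hf
  exact ⟨‖c‖ * C, fun x => by
    rw [norm_mul]
    exact mul_le_mul_of_nonneg_left (hC x) (norm_nonneg _)⟩

private theorem gnr_bddC_shift {f : ℤ → ℂ} (hf : BddC f) (n : ℤ) : BddC fun x => f (x - n) := by
  obtain ⟨C, hC⟩ := hf
  exact ⟨C, fun x => hC _⟩

/-- GNR1 -/
theorem Rep.sub (f g : ℤ → ℂ) (hf : BddC f) (hg : BddC g) : R.ι (fun x => f x - g x) = R.ι f - R.ι g := by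
  have h1 : (fun x => f x - g x) = fun x => f x + (-1 : ℂ) * g x := by
    funext x; ring
  rw [h1, R.add f (fun x => (-1 : ℂ) * g x) hf (gnr_bddC_smul _ hg), R.smul _ g hg, neg_one_smul, sub_eq_add_neg]

/-- GNR2 -/
theorem Rep.norm_le (f : ℤ → ℂ) (C : ℝ) (hC : 0 ≤ C) (hf : ∀ x, ‖f x‖ ≤ C) : ‖R.ι f‖ ≤ C := by
  have h1 : (inner ℂ (R.ι f) (R.ι f) : ℂ) = M.c (fun x => (starRingEnd ℂ) (f x) * f x) := R.inn f f ⟨C, hf⟩ ⟨C, hf⟩
  have h2 : ‖R.ι f‖ ^ 2 = M.m (fun x => ‖f x‖ ^ 2) := by
    have h3 : ((‖R.ι f‖ : ℂ)) ^ 2 = M.c (fun x => (starRingEnd ℂ) (f x) * f x) := by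
      rw [← h1, inner_self_eq_norm_sq_to_K]; rfl
    have h4 : (fun x => ((starRingEnd ℂ) (f x) * f x).re) = fun x => ‖f x‖ ^ 2 := by
      funext x
      rw [mul_comm, Complex.mul_conj, Complex.normSq_eq_norm_sq]
      exact Complex.ofReal_re _
    have h5 := congrArg Complex.re h3
    unfold Mean.c at h5
    rw [h4] at h5
    have h6 : ((‖R.ι f‖ : ℂ) ^ 2).re = ‖R.ι f‖ ^ 2 := by
      rw [← Complex.ofReal_pow]; exact Complex.ofReal_re _
    rw [h6] at h5
    rw [h5]
    simp
  have h7 : M.m (fun x => ‖f x‖ ^ 2) ≤ C ^ 2 := by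
    have := M.abs_le (f := fun x => ‖f x‖ ^ 2) (C := C ^ 2) (fun x => by
      rw [abs_of_nonneg (by positivity)]
      exact pow_le_pow_left₀ (norm_nonneg _) (hf x) 2)
    exact (le_abs_self _).trans this
  rw [← h2] at h7
  exact le_of_sq_le_sq h7 hC

private theorem gnr_shift_pow (f : ℤ → ℂ) (hf : BddC f) (n : ℕ) :
    (R.T ^ n) (R.ι f) = R.ι (fun x => f (x - n * p)) := by
  induction n with
  | zero => simp
  | succ n ih =>
    rw [pow_succ']
    show R.T ((R.T ^ n) (R.ι f)) = _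
    rw [ih, R.shift _ (gnr_bddC_shift hf _)]
    congr 1
    funext x
    congr 1
    push_cast
    ring

private theorem gnr_shift_inv (f : ℤ → ℂ) (hf : BddC f) :
    R.T⁻¹ (R.ι f) = R.ι (fun x => f (x + p)) := by
  have h1 : R.T (R.ι (fun x => f (x + p))) = R.ι f := by
    have h2 : BddC (fun x => f (x + p)) := by
      have := gnr_bddC_shift hf (-p)
      simpa [sub_neg_eq_add] using this
    rw [R.shift _ h2]
    congr 1
    funext x
    congr 1
    ring
  rw [← h1]
  exact R.T.symm_apply_apply _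

private theorem gnr_shift_inv_pow (f : ℤ → ℂ) (hf : BddC f) (n : ℕ) :
    (R.T⁻¹ ^ n) (R.ι f) = R.ι (fun x => f (x + n * p)) := by
  induction n with
  | zero => simp
  | succ n ih =>
    have h2 : BddC (fun x => f (x + n * p)) := by
      have := gnr_bddC_shift hf (-(n * p))
      simpa [sub_neg_eq_add] using this
    rw [pow_succ']
    show R.T⁻¹ ((R.T⁻¹ ^ n) (R.ι f)) = _
    rw [ih, gnr_shift_inv R _ h2]
    congr 1
    funext x
    congr 1
    push_cast
    ring

/-- GNR3 -/
theorem Rep.shift_zpow (f : ℤ → ℂ) (hf : BddC f) (n : ℤ) : (R.T ^ n) (R.ι f) = R.ι (fun x => f (x - n * p)) := by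
  cases n with
  | ofNat n =>
    have := gnr_shift_pow R f hf n
    simpa using this
  | negSucc n =>
    have := gnr_shift_inv_pow R f hf (n + 1)
    rw [zpow_negSucc, ← inv_pow, this]
    congr 1
    funext x
    congr 1
    push_cast [Int.negSucc_eq]
    ring

/-- GNR4 -/
theorem Rep.re_inner (f g : ℤ → ℝ) (hf : Bdd f) (hg : Bdd g) :
    (inner ℂ (R.ι fun x => (f x : ℂ)) (R.ι fun x => (g x : ℂ))) = ((M.m fun x => f x * g x : ℝ) : ℂ) := by
  have hf' : BddC (fun x => (f x : ℂ)) := by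
    obtain ⟨C, hC⟩ := hf
    exact ⟨C, fun x => by rw [Complex.norm_real]; exact hC x⟩
  have hg' : BddC (fun x => (g x : ℂ)) := by
    obtain ⟨C, hC⟩ := hg
    exact ⟨C, fun x => by rw [Complex.norm_real]; exact hC x⟩
  rw [R.inn _ _ hf' hg']
  unfold Mean.c
  have h1 : (fun x => ((starRingEnd ℂ) (f x : ℂ) * (g x : ℂ)).re) = fun x => f x * g x := by
    funext x
    rw [Complex.conj_ofReal, ← Complex.ofReal_mul, Complex.ofReal_re]
  have h2 : (fun x => ((starRingEnd ℂ) (f x : ℂ) * (g x : ℂ)).im) = fun _ => (0 : ℝ) := by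
    funext x
    rw [Complex.conj_ofReal, ← Complex.ofReal_mul, Complex.ofReal_im]
  have h3 : M.m (fun _ => (0 : ℝ)) = 0 := by
    have := M.smul' 0 (fun _ => (0 : ℝ)) (Bdd.const 0)
    simpa using this
  rw [h1, h2, h3]
  simp

/-- GNR5 -/
theorem Rep.sum {ι' : Type*} (s : Finset ι') (f : ι' → ℤ → ℂ) (hf : ∀ i ∈ s, BddC (f i)) :
    R.ι (fun x => ∑ i ∈ s, f i x) = ∑ i ∈ s, R.ι (f i) := by
  classical
  have key : BddC (fun x => ∑ i ∈ s, f i x) ∧ R.ι (fun x => ∑ i ∈ s, f i x) = ∑ i ∈ s, R.ι (f i) := by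
    induction s using Finset.induction_on with
    | empty =>
      refine ⟨⟨0, fun x => by simp⟩, ?_⟩
      have := R.smul 0 (fun _ => (0 : ℂ)) ⟨0, fun x => by simp⟩
      simpa using this
    | insert a s ha ih =>
      have ih' := ih (fun i hi => hf i (Finset.mem_insert_of_mem hi))
      have hfa := hf a (Finset.mem_insert_self a s)
      have h1 : (fun x => ∑ i ∈ insert a s, f i x) = fun x => f a x + ∑ i ∈ s, f i x := by
        funext x
        rw [Finset.sum_insert ha]
      rw [h1, Finset.sum_insert ha]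
      exact ⟨gnr_bddC_add hfa ih'.1, by rw [R.add _ _ hfa ih'.1, ih'.2]⟩
  exact key.2

end Pool.Agent.StrA
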