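import Pool.Agent.StrA.Defs

/-! STRUCTURE (helper37): module MEX. -/

set_option autoImplicit false

namespace Pool.Agent.StrA

open Finset Filter Topology

/-- the average over `(a, a + L]` -/
private noncomputable def mexA (a : ℤ) (L : ℕ) (f : ℤ → ℝ) : ℝ :=
  (∑ x ∈ Ioc a (a + L), f x) / L

private theorem mexA_add (a : ℤ) (L : ℕ) (f g : ℤ → ℝ) :
    mexA a L (fun x => f x + g x) = mexA a L f + mexA a L g := by
  unfold mexA
  rw [sum_add_distrib, add_div]

private theorem mexA_smul (a : ℤ) (L : ℕ) (c : ℝ) (f : ℤ → ℝ) :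
    mexA a L (fun x => c * f x) = c * mexA a L f := by
  unfold mexA
  rw [← mul_sum, mul_div_assoc]

private theorem mexA_nonneg (a : ℤ) (L : ℕ) (f : ℤ → ℝ) (h : ∀ x, 0 ≤ f x) :
    0 ≤ mexA a L f := by
  unfold mexA
  exact div_nonneg (sum_nonneg fun x _ => h x) (Nat.cast_nonneg _)

private theorem mex_card (a : ℤ) (L : ℕ) : (Ioc a (a + L)).card = L := by
  rw [Int.card_Ioc]
  simp

private theorem mexA_abs (a : ℤ) (L : ℕ) (f : ℤ → ℝ) (C : ℝ) (h : ∀ x, |f x| ≤ C) :
    |mexA a L f| ≤ C := by
  have hC : 0 ≤ C := (abs_nonneg _).trans (h 0)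
  unfold mexA
  rcases Nat.eq_zero_or_pos L with hL | hL
  · subst hL
    simpa using hC
  · have hL' : (0 : ℝ) < L := by exact_mod_cast hL
    rw [abs_div, abs_of_pos hL', div_le_iff₀ hL']
    refine (abs_sum_le_sum_abs _ _).trans ?_
    refine (sum_le_card_nsmul _ _ C fun x _ => h x).trans ?_
    rw [mex_card, nsmul_eq_mul, mul_comm]

private theorem mex_shift (a : ℤ) (L : ℕ) (f : ℤ → ℝ) :
    ∑ x ∈ Ioc a (a + L), f (x - 1) = ∑ x ∈ Ioc a (a + L), f x + (f a - f (a + L)) := by
  induction L with
  | zero => simp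
  | succ n ih =>
    have h1 : Ioc a (a + ((n + 1 : ℕ) : ℤ)) = insert (a + ((n + 1 : ℕ) : ℤ)) (Ioc a (a + n)) := by
      ext x
      simp only [mem_Ioc, mem_insert]
      push_cast
      omega
    have h2 : (a + ((n + 1 : ℕ) : ℤ)) ∉ Ioc a (a + n) := by
      simp only [mem_Ioc]
      push_cast
      omega
    rw [h1, sum_insert h2, sum_insert h2, ih]
    have h3 : a + ((n + 1 : ℕ) : ℤ) - 1 = a + n := by
      push_cast
      ring
    rw [h3]
    ring

/-- MEX.  Limit of averages over longer and longer intervals.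
PROOF: `U := Filter.hyperfilter ℕ` (an ultrafilter `≤ atTop`); for bounded `f` the averages
`A n f = (∑ x ∈ Ioc (a n) (a n + L n), f x) / L n` are bounded, so they converge along `U`
(compactness of `[-C, C]`: `IsCompact.ultrafilter_le_nhds`); put `M.m f = limUnder U (A · f)` (for unbounded `f` the value is
irrelevant).  Linear, positive, normalised (`L n > 0` eventually), shift: `|A n (f (· - 1)) - A n f| ≤ 2 C / L n → 0`. -/
theorem exists_mean (a : ℕ → ℤ) (L : ℕ → ℕ) (hL : Tendsto L atTop atTop) :
    ∃ M : Mean, M.Inv 1 ∧ ∀ f, Bdd f → ∀ c : ℝ,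
      (∀ n, c * L n ≤ ∑ x ∈ Ioc (a n) (a n + L n), f x) → c ≤ M.m f := by
  classical
  let U : Ultrafilter ℕ := Filter.hyperfilter ℕ
  have hU : (U : Filter ℕ) ≤ atTop := by
    rw [← Nat.cofinite_eq_atTop]
    exact Filter.hyperfilter_le_cofinite
  have hex : ∀ f, Bdd f → Tendsto (fun n => mexA (a n) (L n) f) U
      (𝓝 (limUnder (U : Filter ℕ) fun n => mexA (a n) (L n) f)) := by
    rintro f ⟨C, hC⟩
    apply tendsto_nhds_limUnder
    obtain ⟨y, -, hy⟩ := (isCompact_Icc (a := -C) (b := C)).ultrafilter_le_nhds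
      (U.map fun n => mexA (a n) (L n) f) (by
        rw [le_principal_iff]
        change (fun n => mexA (a n) (L n) f) ⁻¹' Set.Icc (-C) C ∈ U
        filter_upwards with n
        exact Set.mem_Icc.2 (abs_le.1 (mexA_abs (a n) (L n) f C hC)))
    exact ⟨y, hy⟩
  have hLpos : ∀ᶠ n in (U : Filter ℕ), 0 < L n := hU (hL.eventually_gt_atTop 0)
  let M : Mean :=
    { m := fun f => limUnder (U : Filter ℕ) fun n => mexA (a n) (L n) f
      add' := by
        intro f g hf hg
        have hfg : Bdd fun x => f x + g x := by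
          obtain ⟨C, hC⟩ := hf
          obtain ⟨D, hD⟩ := hg
          exact ⟨C + D, fun x => (abs_add_le _ _).trans (add_le_add (hC x) (hD x))⟩
        refine tendsto_nhds_unique (hex _ hfg) ?_
        have h1 := (hex f hf).add (hex g hg)
        refine h1.congr fun n => ?_
        rw [mexA_add]
      smul' := by
        intro c f hf
        have hcf : Bdd fun x => c * f x := by
          obtain ⟨C, hC⟩ := hf
          exact ⟨|c| * C, fun x => by
            rw [abs_mul]
            exact mul_le_mul_of_nonneg_left (hC x) (abs_nonneg _)⟩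
        refine tendsto_nhds_unique (hex _ hcf) ?_
        refine ((hex f hf).const_mul c).congr fun n => ?_
        rw [mexA_smul]
      nonneg' := by
        intro f hf h0
        exact ge_of_tendsto' (hex f hf) fun n => mexA_nonneg _ _ f h0
      one' := by
        have hb : Bdd fun _ => (1 : ℝ) := ⟨1, fun x => by simp⟩
        refine tendsto_nhds_unique (hex _ hb) ?_
        refine tendsto_const_nhds.congr' ?_
        filter_upwards [hLpos] with n hn
        unfold mexA
        rw [sum_const, mex_card, nsmul_eq_mul, mul_one, div_self]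
        exact_mod_cast hn.ne' }
  refine ⟨M, ?_, ?_⟩
  · intro f hf
    have hfs : Bdd fun x => f (x - 1) := by
      obtain ⟨C, hC⟩ := hf
      exact ⟨C, fun x => hC _⟩
    refine tendsto_nhds_unique (hex _ hfs) ?_
    obtain ⟨C, hC⟩ := hf
    have h0 : Tendsto (fun n => (f (a n) - f (a n + L n)) / (L n : ℝ)) (U : Filter ℕ) (𝓝 0) := by
      have h1 : Tendsto (fun n => (2 * C) / (L n : ℝ)) (U : Filter ℕ) (𝓝 0) :=
        (tendsto_const_nhds.div_atTop (tendsto_natCast_atTop_atTop.comp hL)).mono_left hU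
      refine squeeze_zero_norm' ?_ h1
      filter_upwards [hLpos] with n hn
      rw [norm_div, Real.norm_eq_abs, Real.norm_eq_abs, Nat.abs_cast]
      refine div_le_div_of_nonneg_right ?_ (Nat.cast_nonneg _)
      refine (abs_sub _ _).trans ?_
      linarith [hC (a n), hC (a n + L n)]
    have h2 := (hex f ⟨C, hC⟩).add h0
    rw [add_zero] at h2
    refine h2.congr fun n => ?_
    unfold mexA
    rw [mex_shift, add_div]
  · intro f hf c hc
    refine ge_of_tendsto (hex f hf) ?_
    filter_upwards [hLpos] with n hn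
    have hn' : (0 : ℝ) < L n := by exact_mod_cast hn
    unfold mexA
    rw [le_div_iff₀ hn']
    exact hc n

end Pool.Agent.StrA
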