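import Pool.Agent.StrA.Defs

/-! STRUCTURE (helper37): modules W1 - W5 (weakly mixing vectors, elementary). -/

set_option autoImplicit false

namespace Pool.Agent.StrA

open Finset Filter Topology

variable {H : Type*} [NormedAddCommGroup H] [InnerProductSpace ℂ H]

private theorem w_norm (T : H ≃ₗᵢ[ℂ] H) (l : ℂ) (hl : ‖l‖ = 1) (n : ℕ) (v : H) :
    ‖(l ^ n)⁻¹ • (T ^ n) v‖ = ‖v‖ := by
  rw [norm_smul, norm_inv, norm_pow, hl, one_pow, inv_one, one_mul, LinearIsometryEquiv.norm_map]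

private theorem w_add (T : H ≃ₗᵢ[ℂ] H) (l : ℂ) (n k : ℕ) (v : H) :
    (l ^ n)⁻¹ • (T ^ n) ((l ^ k)⁻¹ • (T ^ k) v) = (l ^ (n + k))⁻¹ • (T ^ (n + k)) v := by
  rw [map_smul, smul_smul, pow_add T, LinearIsometryEquiv.coe_mul, Function.comp_apply,
    pow_add l, mul_inv]

/-- W1.  PROOF: von Neumann (`ContinuousLinearMap.tendsto_birkhoffAverage_orthogonalProjection`) for the isometry `l⁻¹ T`:
`av T l N w` tends to the projection `P w` of `w` to `ker (T - l)`; `‖P w‖² = ⟪P w, w⟫ ≤ s ‖P w‖`, so `‖P w‖ ≤ s`. -/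
theorem ev_av_le [CompleteSpace H] (T : H ≃ₗᵢ[ℂ] H) (w : H) (l : ℂ) (hl : ‖l‖ = 1) (s : ℝ) (hs : 0 ≤ s)
    (hw : ∀ v : H, T v = l • v → ‖(inner ℂ v w : ℂ)‖ ≤ s * ‖v‖) (ε : ℝ) (hε : 0 < ε) :
    ∀ᶠ N : ℕ in atTop, ‖av T l N w‖ ≤ s + ε := by
  have hl0 : l ≠ 0 := fun h => by simp [h] at hl
  let B : H →L[ℂ] H := l⁻¹ • (T.toContinuousLinearEquiv : H →L[ℂ] H)
  have hB : ∀ v, B v = l⁻¹ • T v := fun v => rfl
  have hBn : ‖B‖ ≤ 1 := by
    refine ContinuousLinearMap.opNorm_le_bound _ zero_le_one fun v => ?_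
    rw [hB, norm_smul, norm_inv, hl, inv_one, LinearIsometryEquiv.norm_map]
  have hit : ∀ (n : ℕ) (v : H), B^[n] v = (l ^ n)⁻¹ • (T ^ n) v := by
    intro n v
    induction n with
    | zero => simp
    | succ n ih =>
      rw [Function.iterate_succ_apply', ih, hB]
      have h1 := w_add T l 1 n v
      rw [pow_one, pow_one] at h1
      rw [h1, add_comm]
  have hav : ∀ N : ℕ, birkhoffAverage ℂ B _root_.id N w = av T l N w := by
    intro N
    unfold birkhoffAverage birkhoffSum av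
    congr 1
    refine sum_congr rfl fun n _ => ?_
    exact hit n w
  have h1 := B.tendsto_birkhoffAverage_orthogonalProjection hBn w
  set P := (B.eqLocus (1 : H →L[ℂ] H)).orthogonalProjectionOnto w with hP
  have hPT : T (P : H) = l • (P : H) := by
    have h2 : B (P : H) = (P : H) := P.2
    rw [hB] at h2
    rw [← h2, smul_smul, mul_inv_cancel₀ hl0, one_smul, h2]
  have hPn : ‖(P : H)‖ ≤ s := by
    have h2 := hw P hPT
    have h3 : (inner ℂ (P : H) w : ℂ) = inner ℂ (P : H) (P : H) := by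
      have h4 := Submodule.inner_orthogonalProjectionOnto_eq_of_mem_left
        (K := B.eqLocus (1 : H →L[ℂ] H)) P w
      rw [← h4]
      rfl
    rw [h3, inner_self_eq_norm_sq_to_K] at h2
    have h4 : ‖((‖(P : H)‖ : ℂ)) ^ 2‖ = ‖(P : H)‖ * ‖(P : H)‖ := by
      rw [norm_pow, Complex.norm_real, norm_norm, pow_two]
    have h5 : ‖(P : H)‖ * ‖(P : H)‖ ≤ s * ‖(P : H)‖ := by
      rw [← h4]
      exact h2
    rcases (norm_nonneg (P : H)).eq_or_lt with h6 | h6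
    · rw [← h6]
      exact hs
    · exact le_of_mul_le_mul_right h5 h6
  have h2 : Tendsto (fun N => ‖av T l N w‖) atTop (𝓝 ‖(P : H)‖) := by
    refine h1.norm.congr fun N => ?_
    rw [hav]
  filter_upwards [h2.eventually_lt_const (show ‖(P : H)‖ < s + ε by linarith)] with N hN
  exact hN.le

/-- W2a.  PROOF: with `B = l⁻¹ T`: `av N w = av N (av K w) + av N (w - av K w)`, `w - av K w = (1/K) ∑_{k<K} (w - B^k w)`,
`‖av N (w - B^k w)‖ ≤ 2 k ‖w‖ / N` (telescoping), average over `k < K`: `≤ K ‖w‖ / N`; and `‖av N (av K w)‖ ≤ ‖av K w‖`. -/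
theorem av_le_av (T : H ≃ₗᵢ[ℂ] H) (w : H) (l : ℂ) (hl : ‖l‖ = 1) (K N : ℕ) (hK : 0 < K) (hN : 0 < N) :
    ‖av T l N w‖ ≤ ‖av T l K w‖ + K * ‖w‖ / N := by
  have hK' : (0 : ℝ) < K := by exact_mod_cast hK
  have hN' : (0 : ℝ) < N := by exact_mod_cast hN
  set b : ℕ → H := fun n => (l ^ n)⁻¹ • (T ^ n) w with hb
  have hbn : ∀ n, ‖b n‖ = ‖w‖ := fun n => w_norm T l hl n w
  have hav : ∀ M : ℕ, 0 < M → ‖∑ n ∈ range M, b n‖ = M * ‖av T l M w‖ := by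
    intro M hM
    have hM' : (0 : ℝ) < M := by exact_mod_cast hM
    unfold av
    rw [norm_smul, norm_inv, Complex.norm_natCast, ← mul_assoc, mul_inv_cancel₀ hM'.ne', one_mul]
  have hbs : ∀ (k : ℕ), ‖∑ n ∈ range k, b n‖ ≤ k * ‖w‖ := by
    intro k
    refine (norm_sum_le _ _).trans ?_
    rw [sum_congr rfl fun n _ => hbn n, sum_const, card_range, nsmul_eq_mul]
  have hshift : ∀ k : ℕ, ‖∑ n ∈ range N, b n - ∑ n ∈ range N, b (n + k)‖ ≤ 2 * k * ‖w‖ := by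
    intro k
    have h1 : ∑ x ∈ range (k + N), b x = ∑ x ∈ range k, b x + ∑ x ∈ range N, b (k + x) :=
      sum_range_add _ _ _
    have h2 : ∑ x ∈ range (N + k), b x = ∑ x ∈ range N, b x + ∑ x ∈ range k, b (N + x) :=
      sum_range_add _ _ _
    rw [add_comm k N, h2] at h1
    have h3 : ∑ n ∈ range N, b (n + k) = ∑ x ∈ range N, b (k + x) :=
      sum_congr rfl fun n _ => by rw [add_comm]
    have h4 : ∑ n ∈ range N, b n - ∑ n ∈ range N, b (n + k)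
        = ∑ x ∈ range k, b x - ∑ x ∈ range k, b (N + x) := by
      rw [h3, sub_eq_sub_iff_add_eq_add, h1]
    rw [h4]
    refine (norm_sub_le _ _).trans ?_
    have h5 : ‖∑ x ∈ range k, b (N + x)‖ ≤ k * ‖w‖ := by
      refine (norm_sum_le _ _).trans ?_
      rw [sum_congr rfl fun n _ => hbn (N + n), sum_const, card_range, nsmul_eq_mul]
    linarith [hbs k]
  have hdbl : ‖∑ k ∈ range K, ∑ n ∈ range N, b (n + k)‖ ≤ N * (K * ‖av T l K w‖) := by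
    rw [sum_comm]
    have h1 : ∀ n ∈ range N, ∑ k ∈ range K, b (n + k)
        = (l ^ n)⁻¹ • (T ^ n) (∑ k ∈ range K, b k) := by
      intro n _
      rw [map_sum, smul_sum]
      refine sum_congr rfl fun k _ => ?_
      exact (w_add T l n k w).symm
    rw [sum_congr rfl h1]
    refine (norm_sum_le _ _).trans ?_
    rw [sum_congr rfl fun n _ => w_norm T l hl n _, sum_const, card_range, nsmul_eq_mul,
      hav K hK]
  have hmain : (K : ℝ) * ‖∑ n ∈ range N, b n‖ ≤ N * (K * ‖av T l K w‖) + K * K * ‖w‖ := by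
    have h1 : (K : ℝ) * ‖∑ n ∈ range N, b n‖ = ‖∑ k ∈ range K, ∑ n ∈ range N, b n‖ := by
      rw [sum_const, card_range, ← Nat.cast_smul_eq_nsmul ℂ, norm_smul, Complex.norm_natCast]
    have h2 : ∑ k ∈ range K, ∑ n ∈ range N, b n = ∑ k ∈ range K, ∑ n ∈ range N, b (n + k)
        + ∑ k ∈ range K, (∑ n ∈ range N, b n - ∑ n ∈ range N, b (n + k)) := by
      rw [sum_sub_distrib]
      abel
    rw [h1, h2]
    refine (norm_add_le _ _).trans (add_le_add hdbl ?_)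
    refine (norm_sum_le _ _).trans ((sum_le_sum fun k _ => hshift k).trans ?_)
    have h3 : ∀ k ∈ range K, 2 * (k : ℝ) * ‖w‖ = (k : ℝ) * (2 * ‖w‖) := fun k _ => by ring
    rw [sum_congr rfl h3, ← sum_mul]
    have h4 : (∑ k ∈ range K, (k : ℝ)) * 2 ≤ K * K := by
      have h5 : (∑ k ∈ range K, k) * 2 = K * (K - 1) := Finset.sum_range_id_mul_two K
      have h6 : (∑ k ∈ range K, k) * 2 ≤ K * K := by
        rw [h5]
        exact Nat.mul_le_mul_left _ (Nat.sub_le _ _)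
      have h7 : ((∑ k ∈ range K, k : ℕ) : ℝ) * 2 ≤ K * K := by exact_mod_cast h6
      rwa [Nat.cast_sum] at h7
    calc (∑ k ∈ range K, (k : ℝ)) * (2 * ‖w‖) = (∑ k ∈ range K, (k : ℝ)) * 2 * ‖w‖ := by ring
      _ ≤ K * K * ‖w‖ := mul_le_mul_of_nonneg_right h4 (norm_nonneg _)
  rw [hav N hN] at hmain
  have h1 : ‖av T l K w‖ + K * ‖w‖ / N = (N * (K * ‖av T l K w‖) + K * K * ‖w‖) / (K * N) := by
    field_simp
  rw [h1, le_div_iff₀ (by positivity)]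
  linarith

/-- W2.  PROOF: otherwise there are `N_i → ∞`, `l_i` with `‖av T l_i N_i w‖ > s + ε`; pass to a subsequence `l_i → l` (compactness of
the circle).  For fixed `K`: `s + ε ≤ ‖av T l_i K w‖ + K ‖w‖ / N_i` (W2a), in the limit (`l ↦ av T l K w` is continuous on the
circle) `s + ε ≤ ‖av T l K w‖` for all `K`, contradiction to W1. -/
theorem unif_av_le [CompleteSpace H] (T : H ≃ₗᵢ[ℂ] H) (w : H) (s : ℝ) (hs : 0 ≤ s)
    (hw : ∀ (l : ℂ) (v : H), T v = l • v → ‖(inner ℂ v w : ℂ)‖ ≤ s * ‖v‖) (ε : ℝ) (hε : 0 < ε) :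
    ∃ N0 : ℕ, ∀ N ≥ N0, ∀ l : ℂ, ‖l‖ = 1 → ‖av T l N w‖ ≤ s + ε := by
  by_contra hcon
  push Not at hcon
  choose N hN l hl hgt using hcon
  obtain ⟨l0, hl0, φ, hφ, hlim⟩ := (isCompact_sphere (0 : ℂ) 1).tendsto_subseq
    (x := l) fun n => by simpa using hl n
  have hl0' : ‖l0‖ = 1 := by simpa using hl0
  have hl00 : l0 ≠ 0 := fun h => by simp [h] at hl0'
  obtain ⟨K, hK, hKpos⟩ := ((ev_av_le T w l0 hl0' s hs (fun v hv => hw l0 v hv) (ε / 2)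
    (by positivity)).and (eventually_gt_atTop 0)).exists
  have hcont : Tendsto (fun i => ‖av T (l (φ i)) K w‖) atTop (𝓝 ‖av T l0 K w‖) := by
    apply Tendsto.norm
    unfold av
    refine Tendsto.const_smul (tendsto_finsetSum _ fun n _ => ?_) _
    exact Tendsto.smul_const (Tendsto.inv₀ (hlim.pow n) (pow_ne_zero _ hl00)) _
  have hNt : Tendsto (fun i => (N (φ i) : ℝ)) atTop atTop :=
    tendsto_natCast_atTop_atTop.comp
      ((tendsto_atTop_mono hN tendsto_id).comp hφ.tendsto_atTop)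
  have h0 : Tendsto (fun i => K * ‖w‖ / (N (φ i) : ℝ)) atTop (𝓝 0) :=
    tendsto_const_nhds.div_atTop hNt
  have h1 := hcont.add h0
  rw [add_zero] at h1
  have h2 : s + ε ≤ ‖av T l0 K w‖ := by
    refine ge_of_tendsto h1 ?_
    filter_upwards [hNt.eventually_gt_atTop 0] with i hi
    have hi' : 0 < N (φ i) := by exact_mod_cast hi
    exact (hgt (φ i)).le.trans (av_le_av T w (l (φ i)) (hl _) K (N (φ i)) hKpos hi')
  linarith


private noncomputable def W3gg (T : H ≃ₗᵢ[ℂ] H) (w : H) (h : ℤ) : ℂ := inner ℂ w ((T ^ h) w)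

private theorem W3gg_eq (T : H ≃ₗᵢ[ℂ] H) (w : H) (a b : ℕ) :
    (inner ℂ ((T ^ a) w) ((T ^ b) w) : ℂ) = W3gg T w ((b : ℤ) - a) := by
  have h1 : (T ^ b) w = (T ^ a) ((T ^ ((b : ℤ) - a)) w) := by
    have h2 : T ^ b = T ^ a * T ^ ((b : ℤ) - a) := by
      rw [← zpow_natCast T a, ← zpow_add, ← zpow_natCast T b]
      congr 1
      ring
    rw [h2]
    rfl
  rw [h1, LinearIsometryEquiv.inner_map_map]
  rfl

private theorem W3gg_neg (T : H ≃ₗᵢ[ℂ] H) (w : H) (h : ℤ) :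
    W3gg T w (-h) = (starRingEnd ℂ) (W3gg T w h) := by
  unfold W3gg
  rw [inner_conj_symm]
  have h1 : (inner ℂ ((T ^ h) w) w : ℂ) = inner ℂ ((T ^ h) w) ((T ^ h) ((T ^ (-h)) w)) := by
    congr 1
    have h2 : (1 : H ≃ₗᵢ[ℂ] H) = T ^ h * T ^ (-h) := by
      rw [← zpow_add]; simp
    calc w = (1 : H ≃ₗᵢ[ℂ] H) w := rfl
      _ = (T ^ h * T ^ (-h)) w := by rw [← h2]
      _ = _ := rfl
  rw [h1, LinearIsometryEquiv.inner_map_map]

private theorem W3gg_mul_neg (T : H ≃ₗᵢ[ℂ] H) (w : H) (h : ℤ) :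
    W3gg T w h * W3gg T w (-h) = ((‖W3gg T w h‖ ^ 2 : ℝ) : ℂ) := by
  rw [W3gg_neg, Complex.mul_conj]
  rw [Complex.normSq_eq_norm_sq]

/-- square norm of the exponential sum -/
private theorem W3S (T : H ≃ₗᵢ[ℂ] H) (w : H) (n : ℕ) (z : ℂ) (hz : ‖z‖ = 1) :
    ((‖∑ a ∈ range n, (z ^ a)⁻¹ • (T ^ a) w‖ ^ 2 : ℝ) : ℂ) =
      ∑ a ∈ range n, ∑ b ∈ range n, z ^ ((a : ℤ) - b) * W3gg T w ((b : ℤ) - a) := by
  have hz0 : z ≠ 0 := by
    intro h; rw [h] at hz; simp at hz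
  have h1 : ((‖∑ a ∈ range n, (z ^ a)⁻¹ • (T ^ a) w‖ ^ 2 : ℝ) : ℂ) =
      inner ℂ (∑ a ∈ range n, (z ^ a)⁻¹ • (T ^ a) w) (∑ a ∈ range n, (z ^ a)⁻¹ • (T ^ a) w) := by
    rw [inner_self_eq_norm_sq_to_K]
    push_cast
    rfl
  rw [h1, sum_inner]
  refine Finset.sum_congr rfl fun a _ => ?_
  rw [inner_sum]
  refine Finset.sum_congr rfl fun b _ => ?_
  rw [inner_smul_left, inner_smul_right, W3gg_eq]
  have h2 : (starRingEnd ℂ) (z ^ a)⁻¹ = z ^ a := by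
    rw [map_inv₀, map_pow]
    have h3 : (starRingEnd ℂ) z = z⁻¹ := by
      rw [Complex.inv_def, Complex.normSq_eq_norm_sq, hz]
      simp
    rw [h3]
    simp
  rw [h2]
  have h4 : z ^ ((a : ℤ) - b) = z ^ a * (z ^ b)⁻¹ := by
    rw [zpow_sub₀ hz0]
    simp [div_eq_mul_inv]
  rw [h4]
  ring

private theorem W3root (M : ℕ) (hM : 0 < M) : ∃ o : ℂ, ‖o‖ = 1 ∧ ∀ k : ℤ, |k| < M →
    ∑ j ∈ range M, (o ^ j) ^ k = if k = 0 then (M : ℂ) else 0 := by
  refine ⟨Complex.exp (2 * Real.pi * Complex.I / M), ?_, ?_⟩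
  · have h1 := (Complex.isPrimitiveRoot_exp M hM.ne')
    exact h1.norm'_eq_one hM.ne'
  · intro k hk
    have h1 := (Complex.isPrimitiveRoot_exp M hM.ne')
    set o := Complex.exp (2 * Real.pi * Complex.I / M) with ho
    have ho0 : o ≠ 0 := Complex.exp_ne_zero _
    have h2 : ∀ j ∈ range M, (o ^ j) ^ k = (o ^ k) ^ j := by
      intro j _
      rw [← zpow_natCast, ← zpow_mul, ← zpow_natCast, ← zpow_mul, mul_comm]
    rw [Finset.sum_congr rfl h2]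
    by_cases h0 : k = 0
    · subst h0
      simp
    · rw [if_neg h0]
      have h3 : o ^ k ≠ 1 := by
        intro h4
        rw [h1.zpow_eq_one_iff_dvd] at h4
        have h5 := Int.eq_zero_of_abs_lt_dvd h4 hk
        exact h0 h5
      have h6 := mul_neg_geom_sum (o ^ k) M
      have h7 : (o ^ k) ^ M = 1 := by
        rw [← zpow_natCast, ← zpow_mul, mul_comm, zpow_mul, zpow_natCast, h1.pow_eq_one, one_zpow]
      rw [h7, sub_self] at h6
      rcases mul_eq_zero.mp h6 with h8 | h8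
      · exfalso
        exact h3 (sub_eq_zero.mp h8).symm
      · exact h8

private theorem W3count (a b N L : ℕ) (ha : a < N) (hb : b < N) (hL : N ≤ L) :
    ((L : ℝ) - N) ≤ ∑ c ∈ range L, ∑ d ∈ range L, (if ((a : ℤ) - b) + ((c : ℤ) - d) = 0 then (1 : ℝ) else 0) := by
  rw [← Finset.sum_product', ← Finset.sum_filter, Finset.sum_const, nsmul_eq_mul, mul_one]
  have h1 : (range (L - N)).image (fun i => (i + (b - a), i + (a - b))) ⊆
      (range L ×ˢ range L).filter (fun x => ((a : ℤ) - b) + ((x.1 : ℤ) - x.2) = 0) := by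
    intro x hx
    simp only [Finset.mem_image, Finset.mem_range] at hx
    obtain ⟨i, hi, rfl⟩ := hx
    simp only [Finset.mem_filter, Finset.mem_product, Finset.mem_range]
    refine ⟨⟨by omega, by omega⟩, by omega⟩
  have h2 := Finset.card_le_card h1
  rw [Finset.card_image_of_injective, Finset.card_range] at h2
  · have h3 : ((L - N : ℕ) : ℝ) = (L : ℝ) - N := by
      push_cast [Nat.cast_sub hL]
      ring
    rw [← h3]
    exact_mod_cast h2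
  · intro i j hij
    simp only [Prod.mk.injEq] at hij
    omega

private theorem W3main (T : H ≃ₗᵢ[ℂ] H) (w : H) (N L : ℕ) (hN : 0 < N) (hL : N ≤ L) (s : ℝ) (hs : 0 ≤ s)
    (h : ∀ l : ℂ, ‖l‖ = 1 → ‖av T l N w‖ ≤ s) :
    ((L : ℝ) - N) * ∑ a ∈ range N, ∑ b ∈ range N, ‖(inner ℂ ((T ^ a) w) ((T ^ b) w) : ℂ)‖ ^ 2 ≤
      L * (N ^ 2 * (‖w‖ ^ 2 * s ^ 2)) := by
  obtain ⟨o, ho, hr⟩ := W3root (N + L) (by omega)
  have hoj : ∀ j : ℕ, ‖o ^ j‖ = 1 := fun j => by rw [norm_pow, ho, one_pow]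
  set F : ℕ → ℕ → ℝ := fun n j => ‖∑ a ∈ range n, ((o ^ j) ^ a)⁻¹ • (T ^ a) w‖ ^ 2 with hF
  have hM0 : (0 : ℝ) < ((N + L : ℕ) : ℝ) := by
    have : 0 < N + L := by omega
    exact_mod_cast this
  -- the mean of F L
  have hFL : ∑ j ∈ range (N + L), F L j = ((N + L : ℕ) : ℝ) * (L * ‖w‖ ^ 2) := by
    have h1 : ((∑ j ∈ range (N + L), F L j : ℝ) : ℂ) = ((((N + L : ℕ) : ℝ) * (L * ‖w‖ ^ 2) : ℝ) : ℂ) := by
      rw [Complex.ofReal_sum]
      have h2 : ∀ j ∈ range (N + L), ((F L j : ℝ) : ℂ) =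
          ∑ a ∈ range L, ∑ b ∈ range L, (o ^ j) ^ ((a : ℤ) - b) * W3gg T w ((b : ℤ) - a) := by
        intro j _
        exact W3S T w L (o ^ j) (hoj j)
      rw [Finset.sum_congr rfl h2, Finset.sum_comm]
      have h3 : ∀ a ∈ range L, (∑ j ∈ range (N + L), ∑ b ∈ range L, (o ^ j) ^ ((a : ℤ) - b) * W3gg T w ((b : ℤ) - a)) =
          ((N + L : ℕ) : ℂ) * (‖w‖ ^ 2 : ℝ) := by
        intro a ha
        rw [Finset.sum_comm]
        have h4 : ∀ b ∈ range L, (∑ j ∈ range (N + L), (o ^ j) ^ ((a : ℤ) - b) * W3gg T w ((b : ℤ) - a)) =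
            if b = a then ((N + L : ℕ) : ℂ) * W3gg T w 0 else 0 := by
          intro b hb
          rw [← Finset.sum_mul, hr _ (by
            rw [Finset.mem_range] at ha hb
            rw [abs_lt]
            push_cast
            constructor <;> omega)]
          by_cases hab : b = a
          · subst hab
            simp
          · rw [if_neg (by omega), if_neg hab, zero_mul]
        rw [Finset.sum_congr rfl h4, Finset.sum_ite_eq', if_pos ha]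
        have h5 : W3gg T w 0 = ((‖w‖ ^ 2 : ℝ) : ℂ) := by
          unfold W3gg
          rw [zpow_zero]
          have : (1 : H ≃ₗᵢ[ℂ] H) w = w := rfl
          rw [this, inner_self_eq_norm_sq_to_K]
          push_cast
          rfl
        rw [h5]
      rw [Finset.sum_congr rfl h3, Finset.sum_const, Finset.card_range, nsmul_eq_mul]
      push_cast
      ring
    exact_mod_cast h1
  -- the mean of F N * F L
  have hprod : ∑ j ∈ range (N + L), F N j * F L j = ((N + L : ℕ) : ℝ) *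
      ∑ a ∈ range N, ∑ b ∈ range N, ‖W3gg T w ((b : ℤ) - a)‖ ^ 2 *
        ∑ c ∈ range L, ∑ d ∈ range L, (if ((a : ℤ) - b) + ((c : ℤ) - d) = 0 then (1 : ℝ) else 0) := by
    have h1 : ((∑ j ∈ range (N + L), F N j * F L j : ℝ) : ℂ) = ((((N + L : ℕ) : ℝ) *
      ∑ a ∈ range N, ∑ b ∈ range N, ‖W3gg T w ((b : ℤ) - a)‖ ^ 2 *
        ∑ c ∈ range L, ∑ d ∈ range L, (if ((a : ℤ) - b) + ((c : ℤ) - d) = 0 then (1 : ℝ) else 0) : ℝ) : ℂ) := by
      rw [Complex.ofReal_sum]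
      have h2 : ∀ j ∈ range (N + L), ((F N j * F L j : ℝ) : ℂ) =
          ∑ a ∈ range N, ∑ b ∈ range N, ∑ c ∈ range L, ∑ d ∈ range L,
            (o ^ j) ^ (((a : ℤ) - b) + ((c : ℤ) - d)) * (W3gg T w ((b : ℤ) - a) * W3gg T w ((d : ℤ) - c)) := by
        intro j _
        have hz0 : o ^ j ≠ 0 := by
          intro h; have := hoj j; rw [h] at this; simp at this
        rw [Complex.ofReal_mul, W3S T w N (o ^ j) (hoj j), W3S T w L (o ^ j) (hoj j), Finset.sum_mul]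
        refine Finset.sum_congr rfl fun a _ => ?_
        rw [Finset.sum_mul]
        refine Finset.sum_congr rfl fun b _ => ?_
        rw [Finset.mul_sum]
        refine Finset.sum_congr rfl fun c _ => ?_
        rw [Finset.mul_sum]
        refine Finset.sum_congr rfl fun d _ => ?_
        rw [zpow_add₀ hz0]
        ring
      rw [Finset.sum_congr rfl h2, Finset.sum_comm]
      rw [Complex.ofReal_mul, Complex.ofReal_sum, Finset.mul_sum]
      refine Finset.sum_congr rfl fun a ha => ?_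
      rw [Finset.sum_comm, Complex.ofReal_sum, Finset.mul_sum]
      refine Finset.sum_congr rfl fun b hb => ?_
      rw [Finset.sum_comm, Complex.ofReal_mul, Complex.ofReal_sum, Finset.mul_sum, Finset.mul_sum]
      refine Finset.sum_congr rfl fun c hc => ?_
      rw [Finset.sum_comm, Complex.ofReal_sum, Finset.mul_sum, Finset.mul_sum]
      refine Finset.sum_congr rfl fun d hd => ?_
      rw [Finset.mem_range] at ha hb hc hd
      rw [← Finset.sum_mul, hr _ (by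
        rw [abs_lt]
        push_cast
        constructor <;> omega)]
      by_cases h0 : ((a : ℤ) - b) + ((c : ℤ) - d) = 0
      · rw [if_pos h0, if_pos h0]
        have h3 : (d : ℤ) - c = -((b : ℤ) - a) := by omega
        rw [h3, W3gg_mul_neg]
        push_cast
        ring
      · rw [if_neg h0, if_neg h0]
        simp
    exact_mod_cast h1
  -- upper bound
  have hFN : ∀ j, F N j ≤ (N * s) ^ 2 := by
    intro j
    have h1 := h (o ^ j) (hoj j)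
    unfold av at h1
    rw [norm_smul, norm_inv, Complex.norm_natCast] at h1
    have hN' : (0 : ℝ) < N := by exact_mod_cast hN
    have h2 : ‖∑ n ∈ range N, ((o ^ j) ^ n)⁻¹ • (T ^ n) w‖ ≤ N * s := by
      rw [inv_mul_le_iff₀ hN'] at h1
      exact h1
    exact pow_le_pow_left₀ (norm_nonneg _) h2 2
  have hFL0 : ∀ j, 0 ≤ F L j := fun j => by positivity
  have hup : ∑ j ∈ range (N + L), F N j * F L j ≤ (N * s) ^ 2 * (((N + L : ℕ) : ℝ) * (L * ‖w‖ ^ 2)) := by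
    rw [← hFL, Finset.mul_sum]
    exact Finset.sum_le_sum fun j _ => mul_le_mul_of_nonneg_right (hFN j) (hFL0 j)
  rw [hprod] at hup
  have hlow : ((L : ℝ) - N) * ∑ a ∈ range N, ∑ b ∈ range N, ‖(inner ℂ ((T ^ a) w) ((T ^ b) w) : ℂ)‖ ^ 2 ≤
      ∑ a ∈ range N, ∑ b ∈ range N, ‖W3gg T w ((b : ℤ) - a)‖ ^ 2 *
        ∑ c ∈ range L, ∑ d ∈ range L, (if ((a : ℤ) - b) + ((c : ℤ) - d) = 0 then (1 : ℝ) else 0) := by
    rw [Finset.mul_sum]
    refine Finset.sum_le_sum fun a ha => ?_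
    rw [Finset.mul_sum]
    refine Finset.sum_le_sum fun b hb => ?_
    rw [W3gg_eq, mul_comm]
    exact mul_le_mul_of_nonneg_left
      (W3count a b N L (Finset.mem_range.mp ha) (Finset.mem_range.mp hb) hL) (by positivity)
  have h9 : ((N + L : ℕ) : ℝ) * (((L : ℝ) - N) *
      ∑ a ∈ range N, ∑ b ∈ range N, ‖(inner ℂ ((T ^ a) w) ((T ^ b) w) : ℂ)‖ ^ 2) ≤
      ((N + L : ℕ) : ℝ) * (L * (N ^ 2 * (‖w‖ ^ 2 * s ^ 2))) := by
    refine (mul_le_mul_of_nonneg_left hlow hM0.le).trans (hup.trans (le_of_eq ?_))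
    ring
  exact le_of_mul_le_mul_left h9 hM0

/-- W3. -/
theorem gram_le (T : H ≃ₗᵢ[ℂ] H) (w : H) (N : ℕ) (hN : 0 < N) (s : ℝ) (hs : 0 ≤ s)
    (h : ∀ l : ℂ, ‖l‖ = 1 → ‖av T l N w‖ ≤ s) :
    ∑ a ∈ range N, ∑ b ∈ range N, ‖(inner ℂ ((T ^ a) w) ((T ^ b) w) : ℂ)‖ ^ 2 ≤ N ^ 2 * (‖w‖ ^ 2 * s ^ 2) := by
  set Q := ∑ a ∈ range N, ∑ b ∈ range N, ‖(inner ℂ ((T ^ a) w) ((T ^ b) w) : ℂ)‖ ^ 2 with hQ
  set X := (N : ℝ) ^ 2 * (‖w‖ ^ 2 * s ^ 2) with hX
  by_contra hlt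
  push Not at hlt
  have hpos : 0 < Q - X := sub_pos.mpr hlt
  obtain ⟨L, hL⟩ := exists_nat_gt (N * Q / (Q - X))
  have h1 := W3main T w N (max L N) hN (le_max_right _ _) s hs h
  rw [← hQ, ← hX] at h1
  rw [div_lt_iff₀ hpos] at hL
  have h2 : (L : ℝ) ≤ ((max L N : ℕ) : ℝ) := by exact_mod_cast le_max_left _ _
  have h3 : (L : ℝ) * (Q - X) ≤ ((max L N : ℕ) : ℝ) * (Q - X) := mul_le_mul_of_nonneg_right h2 hpos.le
  linarith


private theorem W4shift {V : Type*} [AddCommMonoid V] (v : ℤ → V) (a : ℤ) (L N j : ℕ) (hj : j < N)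
    (hv : ∀ n, n ∉ Ioc a (a + L) → v n = 0) :
    ∑ m ∈ Ioc (a - N) (a + L), v (m + j) = ∑ n ∈ Ioc a (a + L), v n := by
  have h1 : ∑ m ∈ Ioc (a - N) (a + L), v (m + j) = ∑ n ∈ Ioc (a - N + j) (a + L + j), v n := by
    refine Finset.sum_bij (fun m _ => m + (j : ℤ)) ?_ ?_ ?_ ?_
    · intro m hm
      rw [Finset.mem_Ioc] at hm ⊢
      omega
    · intro m _ m' _ hmm
      simpa using hmm
    · intro n hn
      rw [Finset.mem_Ioc] at hn
      refine ⟨n - j, ?_, by ring⟩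
      rw [Finset.mem_Ioc]
      omega
    · intro m _
      rfl
  rw [h1]
  symm
  apply Finset.sum_subset
  · intro n hn
    rw [Finset.mem_Ioc] at hn ⊢
    omega
  · intro n _ hn
    exact hv n hn

private theorem W4inner (T : H ≃ₗᵢ[ℂ] H) (w : H) (m : ℤ) (j k : ℕ) :
    (inner ℂ ((T ^ (m + (j : ℤ))) w) ((T ^ (m + (k : ℤ))) w) : ℂ) = inner ℂ ((T ^ j) w) ((T ^ k) w) := by
  have h1 : ∀ j : ℕ, (T ^ (m + (j : ℤ))) w = (T ^ m) ((T ^ j) w) := by
    intro j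
    rw [zpow_add, zpow_natCast]
    rfl
  rw [h1, h1, LinearIsometryEquiv.inner_map_map]

/-- W4 (van der Corput). -/
theorem vdc (T : H ≃ₗᵢ[ℂ] H) (b w : H) (N : ℕ) (hN : 0 < N) (s : ℝ) (hs : 0 ≤ s)
    (h : ∑ a ∈ range N, ∑ b ∈ range N, ‖(inner ℂ ((T ^ a) w) ((T ^ b) w) : ℂ)‖ ^ 2 ≤ N ^ 2 * (‖w‖ ^ 2 * s ^ 2))
    (a : ℤ) (L : ℕ) :
    (∑ n ∈ Ioc a (a + L), ‖(inner ℂ b ((T ^ n) w) : ℂ)‖ ^ 2) ^ 2 ≤ ((L : ℝ) + N) ^ 2 * (‖b‖ ^ 4 * ‖w‖ ^ 3 * s) := by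
  have hN' : (0 : ℝ) < N := by exact_mod_cast hN
  set c : ℤ → ℂ := fun n => inner ℂ b ((T ^ n) w) with hc
  set v : ℤ → H := fun n => if n ∈ Ioc a (a + L) then ((starRingEnd ℂ) (c n)) • (T ^ n) w else 0 with hv
  set V := ∑ n ∈ Ioc a (a + L), v n with hV
  have hcn : ∀ n, ‖c n‖ ≤ ‖b‖ * ‖w‖ := by
    intro n
    refine (norm_inner_le_norm _ _).trans ?_
    rw [LinearIsometryEquiv.norm_map]
  -- the double sum of absolute values
  have hG : ∑ j ∈ range N, ∑ k ∈ range N, ‖(inner ℂ ((T ^ j) w) ((T ^ k) w) : ℂ)‖ ≤ N ^ 2 * (‖w‖ * s) := by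
    have h1 : (∑ j ∈ range N, ∑ k ∈ range N, ‖(inner ℂ ((T ^ j) w) ((T ^ k) w) : ℂ)‖) ^ 2 ≤
        (N ^ 2 * (‖w‖ * s)) ^ 2 := by
      rw [← Finset.sum_product']
      refine (sq_sum_le_card_mul_sum_sq).trans ?_
      rw [Finset.card_product, Finset.card_range, Finset.sum_product]
      push_cast
      calc (N : ℝ) * N * ∑ a ∈ range N, ∑ b ∈ range N, ‖(inner ℂ ((T ^ a) w) ((T ^ b) w) : ℂ)‖ ^ 2
          ≤ (N : ℝ) * N * (N ^ 2 * (‖w‖ ^ 2 * s ^ 2)) := mul_le_mul_of_nonneg_left h (by positivity)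
        _ = _ := by ring
    exact le_of_sq_le_sq h1 (by positivity)
  -- the sum of squares
  have hsum : ∑ n ∈ Ioc a (a + L), ‖(inner ℂ b ((T ^ n) w) : ℂ)‖ ^ 2 ≤ ‖b‖ * ‖V‖ := by
    have h1 : ((∑ n ∈ Ioc a (a + L), ‖(inner ℂ b ((T ^ n) w) : ℂ)‖ ^ 2 : ℝ) : ℂ) = inner ℂ b V := by
      rw [hV, inner_sum, Complex.ofReal_sum]
      refine Finset.sum_congr rfl fun n hn => ?_
      simp only [hv]
      rw [if_pos hn, inner_smul_right, mul_comm, Complex.mul_conj, Complex.normSq_eq_norm_sq]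
    have h2 : ∑ n ∈ Ioc a (a + L), ‖(inner ℂ b ((T ^ n) w) : ℂ)‖ ^ 2 = ‖(inner ℂ b V : ℂ)‖ := by
      rw [← h1, Complex.norm_real, Real.norm_of_nonneg]
      exact Finset.sum_nonneg fun _ _ => by positivity
    rw [h2]
    exact norm_inner_le_norm _ _
  -- N V
  have hNV : (N : ℂ) • V = ∑ m ∈ Ioc (a - N) (a + L), ∑ j ∈ range N, v (m + j) := by
    rw [Finset.sum_comm]
    have h1 : ∀ j ∈ range N, ∑ m ∈ Ioc (a - N) (a + L), v (m + j) = V := by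
      intro j hj
      exact W4shift v a L N j (Finset.mem_range.mp hj) (fun n hn => by simp only [hv]; rw [if_neg hn])
    rw [Finset.sum_congr rfl h1, Finset.sum_const, Finset.card_range]
    exact Nat.cast_smul_eq_nsmul ℂ N V
  have hm : ∀ m : ℤ, ‖∑ j ∈ range N, v (m + j)‖ ^ 2 ≤ (‖b‖ * ‖w‖) ^ 2 * (N ^ 2 * (‖w‖ * s)) := by
    intro m
    have h1 : ((‖∑ j ∈ range N, v (m + j)‖ ^ 2 : ℝ) : ℂ) =
        ∑ j ∈ range N, ∑ k ∈ range N, inner ℂ (v (m + j)) (v (m + k)) := by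
      have h2 : ((‖∑ j ∈ range N, v (m + j)‖ ^ 2 : ℝ) : ℂ) =
          inner ℂ (∑ j ∈ range N, v (m + j)) (∑ j ∈ range N, v (m + j)) := by
        rw [inner_self_eq_norm_sq_to_K]
        push_cast
        rfl
      rw [h2, sum_inner]
      refine Finset.sum_congr rfl fun j _ => ?_
      rw [inner_sum]
    have h3 : ‖∑ j ∈ range N, v (m + j)‖ ^ 2 =
        ‖∑ j ∈ range N, ∑ k ∈ range N, (inner ℂ (v (m + j)) (v (m + k)) : ℂ)‖ := by
      rw [← h1, Complex.norm_real, Real.norm_of_nonneg (by positivity)]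
    rw [h3]
    refine (norm_sum_le _ _).trans ?_
    calc ∑ j ∈ range N, ‖∑ k ∈ range N, (inner ℂ (v (m + j)) (v (m + k)) : ℂ)‖
        ≤ ∑ j ∈ range N, ∑ k ∈ range N, (‖b‖ * ‖w‖) ^ 2 * ‖(inner ℂ ((T ^ j) w) ((T ^ k) w) : ℂ)‖ := by
          refine Finset.sum_le_sum fun j _ => (norm_sum_le _ _).trans (Finset.sum_le_sum fun k _ => ?_)
          simp only [hv]
          by_cases hj : m + (j : ℤ) ∈ Ioc a (a + L)
          · by_cases hk : m + (k : ℤ) ∈ Ioc a (a + L)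
            · rw [if_pos hj, if_pos hk, inner_smul_left, inner_smul_right, W4inner, norm_mul, norm_mul]
              simp only [RCLike.norm_conj]
              rw [← mul_assoc]
              refine mul_le_mul_of_nonneg_right ?_ (norm_nonneg _)
              rw [sq]
              exact mul_le_mul (hcn _) (hcn _) (norm_nonneg _) (by positivity)
            · rw [if_neg hk, inner_zero_right, norm_zero]
              positivity
          · rw [if_neg hj, inner_zero_left, norm_zero]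
            positivity
      _ = (‖b‖ * ‖w‖) ^ 2 * ∑ j ∈ range N, ∑ k ∈ range N, ‖(inner ℂ ((T ^ j) w) ((T ^ k) w) : ℂ)‖ := by
          simp_rw [Finset.mul_sum]
      _ ≤ _ := mul_le_mul_of_nonneg_left hG (by positivity)
  have hcard : (((Ioc (a - N) (a + L)).card : ℕ) : ℝ) = (L : ℝ) + N := by
    rw [Int.card_Ioc]
    have h1 : ((a + L - (a - N)).toNat : ℤ) = (L : ℤ) + N := by
      rw [Int.toNat_of_nonneg] <;> omega
    exact_mod_cast h1
  have hNV2 : (N : ℝ) ^ 2 * ‖V‖ ^ 2 ≤ ((L : ℝ) + N) * (((L : ℝ) + N) * ((‖b‖ * ‖w‖) ^ 2 * (N ^ 2 * (‖w‖ * s)))) := by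
    have h1 : (N : ℝ) * ‖V‖ = ‖(N : ℂ) • V‖ := by
      rw [norm_smul, Complex.norm_natCast]
    have h2 : (N : ℝ) * ‖V‖ ≤ ∑ m ∈ Ioc (a - N) (a + L), ‖∑ j ∈ range N, v (m + j)‖ := by
      rw [h1, hNV]
      exact norm_sum_le _ _
    calc (N : ℝ) ^ 2 * ‖V‖ ^ 2 = (N * ‖V‖) ^ 2 := by ring
      _ ≤ (∑ m ∈ Ioc (a - N) (a + L), ‖∑ j ∈ range N, v (m + j)‖) ^ 2 := pow_le_pow_left₀ (by positivity) h2 2
      _ ≤ (Ioc (a - N) (a + L)).card * ∑ m ∈ Ioc (a - N) (a + L), ‖∑ j ∈ range N, v (m + j)‖ ^ 2 :=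
          sq_sum_le_card_mul_sum_sq
      _ ≤ (Ioc (a - N) (a + L)).card * ∑ m ∈ Ioc (a - N) (a + L), (‖b‖ * ‖w‖) ^ 2 * (N ^ 2 * (‖w‖ * s)) :=
          mul_le_mul_of_nonneg_left (Finset.sum_le_sum fun m _ => hm m) (by positivity)
      _ = _ := by
          rw [Finset.sum_const, nsmul_eq_mul, hcard]
  have hV2 : ‖V‖ ^ 2 ≤ ((L : ℝ) + N) ^ 2 * (‖b‖ ^ 2 * ‖w‖ ^ 3 * s) := by
    have h1 : (N : ℝ) ^ 2 * ‖V‖ ^ 2 ≤ (N : ℝ) ^ 2 * (((L : ℝ) + N) ^ 2 * (‖b‖ ^ 2 * ‖w‖ ^ 3 * s)) := by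
      refine hNV2.trans (le_of_eq ?_)
      ring
    exact le_of_mul_le_mul_left h1 (by positivity)
  have h0 : 0 ≤ ∑ n ∈ Ioc a (a + L), ‖(inner ℂ b ((T ^ n) w) : ℂ)‖ ^ 2 := Finset.sum_nonneg fun _ _ => by positivity
  calc (∑ n ∈ Ioc a (a + L), ‖(inner ℂ b ((T ^ n) w) : ℂ)‖ ^ 2) ^ 2 ≤ (‖b‖ * ‖V‖) ^ 2 :=
        pow_le_pow_left₀ h0 hsum 2
    _ = ‖b‖ ^ 2 * ‖V‖ ^ 2 := by ring
    _ ≤ ‖b‖ ^ 2 * (((L : ℝ) + N) ^ 2 * (‖b‖ ^ 2 * ‖w‖ ^ 3 * s)) := mul_le_mul_of_nonneg_left hV2 (by positivity)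
    _ = _ := by ring


private theorem w5_cont (A η : ℝ) (hη : 0 < η) (hA : 0 ≤ A) (s : ℝ) :
    ∃ ε : ℝ, 0 < ε ∧ A * (s + ε) ≤ A * s + η / 2 := by
  refine ⟨η / (2 * (A + 1)), by positivity, ?_⟩
  have h1 : A * (η / (2 * (A + 1))) ≤ η / 2 := by
    rw [mul_div_assoc', div_le_div_iff₀ (by positivity) (by norm_num)]
    nlinarith [mul_nonneg hA hη.le]
  linarith [mul_add A s (η / (2 * (A + 1)))]

/-- W5.  PROOF: W2, W3, W4 with `s + ε'` and `L0` large compared to `N`. -/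
theorem weak_mix [CompleteSpace H] (T : H ≃ₗᵢ[ℂ] H) (b w : H) (s : ℝ) (hs : 0 ≤ s)
    (hw : ∀ (l : ℂ) (v : H), T v = l • v → ‖(inner ℂ v w : ℂ)‖ ≤ s * ‖v‖) (η : ℝ) (hη : 0 < η) :
    ∃ L0 : ℕ, ∀ (a : ℤ) (L : ℕ), L0 ≤ L →
      (∑ n ∈ Ioc a (a + L), ‖(inner ℂ b ((T ^ n) w) : ℂ)‖ ^ 2) ^ 2 ≤ (L : ℝ) ^ 2 * (‖b‖ ^ 4 * ‖w‖ ^ 3 * s + η) := by
  set A : ℝ := ‖b‖ ^ 4 * ‖w‖ ^ 3 with hA
  have hA0 : 0 ≤ A := by positivity
  obtain ⟨ε, hε, hε2⟩ := w5_cont A η hη hA0 s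
  obtain ⟨N0, hN0⟩ := unif_av_le T w s hs hw ε hε
  set N : ℕ := N0 + 1 with hN
  have hNpos : 0 < N := Nat.succ_pos _
  have h1 := gram_le T w N hNpos (s + ε) (by positivity) (fun l hl => hN0 N (by omega) l hl)
  have h2 := fun (a : ℤ) (L : ℕ) => vdc T b w N hNpos (s + ε) (by positivity) h1 a L
  -- (L + N)^2 * (A * (s+ε)) ≤ L^2 (A s + η) for L large
  set B : ℝ := A * s + η / 2 with hB
  have hB0 : 0 ≤ B := by positivity
  -- need (L+N)^2 B ≤ L^2 (B + η/2) : 2 L N B + N^2 B ≤ L^2 η/2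
  obtain ⟨L0, hL0⟩ := exists_nat_ge ((2 * N * B + N ^ 2 * B) / (η / 2) + 1)
  refine ⟨L0, fun a L hL => ?_⟩
  have hL1 : (2 * N * B + N ^ 2 * B) / (η / 2) + 1 ≤ (L : ℝ) := hL0.trans (by exact_mod_cast hL)
  have hq : 0 ≤ (2 * N * B + N ^ 2 * B) / (η / 2) := by positivity
  have hL2 : (1 : ℝ) ≤ L := by linarith
  have hL3 : (2 * N * B + N ^ 2 * B) ≤ (η / 2) * L := by
    have h3 : (2 * N * B + N ^ 2 * B) / (η / 2) ≤ (L : ℝ) := by linarith
    rw [div_le_iff₀ (by positivity)] at h3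
    linarith
  refine (h2 a L).trans ?_
  have h4 : ((L : ℝ) + N) ^ 2 * (‖b‖ ^ 4 * ‖w‖ ^ 3 * (s + ε)) ≤ ((L : ℝ) + N) ^ 2 * B := by
    refine mul_le_mul_of_nonneg_left ?_ (by positivity)
    rw [← hA]; exact hε2
  refine h4.trans ?_
  have hN1 : (0 : ℝ) ≤ N := Nat.cast_nonneg _
  have h5 : 2 * (L : ℝ) * N * B + N ^ 2 * B ≤ L * (2 * N * B + N ^ 2 * B) := by
    nlinarith [mul_nonneg (mul_nonneg hN1 hN1) hB0, mul_nonneg hN1 hB0]
  have h6 : (L : ℝ) * (2 * N * B + N ^ 2 * B) ≤ L * ((η / 2) * L) :=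
    mul_le_mul_of_nonneg_left hL3 (by linarith)
  have h7 : A * s + η = B + η / 2 := by rw [hB]; ring
  rw [h7]
  nlinarith [h5, h6]

/-- W6.  PROOF: W5 with `s = 0`. -/
theorem weak_zero [CompleteSpace H] (T : H ≃ₗᵢ[ℂ] H) (b w : H)
    (hw : ∀ (l : ℂ) (v : H), T v = l • v → (inner ℂ v w : ℂ) = 0) (η : ℝ) (hη : 0 < η) :
    ZeroBD {n : ℤ | η < ‖(inner ℂ b ((T ^ n) w) : ℂ)‖} := by
  intro ε hε
  have hη4 : 0 < (ε * η ^ 2) ^ 2 := by positivity
  obtain ⟨L0, hL0⟩ := weak_mix T b w 0 le_rfl (fun l v hv => by rw [hw l v hv]; simp) ((ε * η ^ 2) ^ 2) hη4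
  refine ⟨L0, fun a L hL => ?_⟩
  have h1 := hL0 a L hL
  rw [mul_zero, zero_add, ← mul_pow] at h1
  have h2 : (∑ n ∈ Ioc a (a + L), ‖(inner ℂ b ((T ^ n) w) : ℂ)‖ ^ 2) ≤ (L : ℝ) * (ε * η ^ 2) :=
    le_of_sq_le_sq h1 (by positivity)
  have h3 : (cnt {n : ℤ | η < ‖(inner ℂ b ((T ^ n) w) : ℂ)‖} a L : ℝ) * η ^ 2 ≤
      ∑ n ∈ Ioc a (a + L), ‖(inner ℂ b ((T ^ n) w) : ℂ)‖ ^ 2 := by
    classical
    unfold cnt
    rw [← nsmul_eq_mul]
    refine le_trans (Finset.card_nsmul_le_sum _ (fun n => ‖(inner ℂ b ((T ^ n) w) : ℂ)‖ ^ 2) (η ^ 2) ?_)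
      (Finset.sum_le_sum_of_subset_of_nonneg (Finset.filter_subset _ _) (fun i _ _ => by positivity))
    intro n hn
    rw [Finset.mem_filter] at hn
    exact pow_le_pow_left₀ hη.le (le_of_lt hn.2) 2
  have h4 : (cnt {n : ℤ | η < ‖(inner ℂ b ((T ^ n) w) : ℂ)‖} a L : ℝ) * η ^ 2 ≤ (ε * L) * η ^ 2 := by
    refine h3.trans (h2.trans (le_of_eq (by ring)))
  exact le_of_mul_le_mul_right h4 (by positivity)

end Pool.Agent.StrA
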