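import Mathlib

/-! STRUCTURE (helper37): definitions for Theorem A (a set without R-clique has Banach density 0 on a Bohr set). -/

set_option autoImplicit false

namespace Pool.Agent.StrA

open Finset Filter Topology

/-- distance to the nearest integer -/
noncomputable def nd (x : ℝ) : ℝ := |x - round x|

/-- Bohr set -/
def Bohr {m : ℕ} (α : Fin m → ℝ) (ρ : ℝ) : Set ℤ := {n | ∀ i, nd ((n : ℝ) * α i) < ρ}

/-- `U` is a Bohr set -/
def IsBohr (U : Set ℤ) : Prop := ∃ (m : ℕ) (α : Fin m → ℝ) (ρ : ℝ), 0 < ρ ∧ U = Bohr α ρ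

/-- product of tents -/
noncomputable def tent {m : ℕ} (α : Fin m → ℝ) (ρ : ℝ) (n : ℤ) : ℝ := ∏ i, max 0 (1 - nd ((n : ℝ) * α i) / ρ)

open Classical in
/-- number of elements of `E` in `(x, x + X]` -/
noncomputable def cnt (E : Set ℤ) (x : ℤ) (X : ℕ) : ℕ := ((Finset.Ioc x (x + X)).filter fun n => n ∈ E).card

/-- upper Banach density zero -/
def ZeroBD (E : Set ℤ) : Prop := ∀ ε : ℝ, 0 < ε → ∃ H : ℕ, ∀ (x : ℤ) (X : ℕ), H ≤ X → (cnt E x X : ℝ) ≤ ε * X

/-- indicator function -/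
noncomputable def ind (E : Set ℤ) : ℤ → ℝ := E.indicator fun _ => (1 : ℝ)

/-- bounded real function -/
def Bdd (f : ℤ → ℝ) : Prop := ∃ C : ℝ, ∀ x, |f x| ≤ C

/-- bounded complex function -/
def BddC (f : ℤ → ℂ) : Prop := ∃ C : ℝ, ∀ x, ‖f x‖ ≤ C

/-- a mean: positive normalised linear functional on the bounded functions -/
structure Mean where
  /-- the functional -/
  m : (ℤ → ℝ) → ℝ
  add' : ∀ f g, Bdd f → Bdd g → m (fun x => f x + g x) = m f + m g
  smul' : ∀ (c : ℝ) f, Bdd f → m (fun x => c * f x) = c * m f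
  nonneg' : ∀ f, Bdd f → (∀ x, 0 ≤ f x) → 0 ≤ m f
  one' : m (fun _ => 1) = 1

/-- `M` is invariant under the shift by `p` -/
def Mean.Inv (M : Mean) (p : ℤ) : Prop := ∀ f, Bdd f → M.m (fun x => f (x - p)) = M.m f

/-- extension of a mean to complex functions -/
noncomputable def Mean.c (M : Mean) (f : ℤ → ℂ) : ℂ :=
  (M.m fun x => (f x).re : ℂ) + (M.m fun x => (f x).im : ℂ) * Complex.I

/-- a Hilbert space representation of the mean `M` with the shift by `p` -/
structure Rep (M : Mean) (p : ℤ) (H : Type) [NormedAddCommGroup H] [InnerProductSpace ℂ H] where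
  /-- the class of a bounded function -/
  ι : (ℤ → ℂ) → H
  /-- the shift -/
  T : H ≃ₗᵢ[ℂ] H
  add : ∀ f g, BddC f → BddC g → ι (fun x => f x + g x) = ι f + ι g
  smul : ∀ (c : ℂ) f, BddC f → ι (fun x => c * f x) = c • ι f
  inn : ∀ f g, BddC f → BddC g → inner ℂ (ι f) (ι g) = M.c (fun x => (starRingEnd ℂ) (f x) * g x)
  shift : ∀ f, BddC f → T (ι f) = ι (fun x => f (x - p))
  dense : ∀ v : H, ∀ ε : ℝ, 0 < ε → ∃ f, BddC f ∧ ‖v - ι f‖ < ε

variable {H : Type*} [NormedAddCommGroup H] [InnerProductSpace ℂ H]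

/-- closed span of the eigenvectors of `T` -/
noncomputable def EE (T : H ≃ₗᵢ[ℂ] H) : Submodule ℂ H :=
  (Submodule.span ℂ {v : H | ∃ l : ℂ, T v = l • v}).topologicalClosure

/-- twisted average -/
noncomputable def av (T : H ≃ₗᵢ[ℂ] H) (l : ℂ) (N : ℕ) (w : H) : H :=
  (N : ℂ)⁻¹ • ∑ n ∈ range N, (l ^ n)⁻¹ • (T ^ n) w

end Pool.Agent.StrA
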