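import Pool.Agent.StrA.Defs

/-! STRUCTURE (helper37): modules MB (basic properties of means), MA (means and averages), ZB (sets of Banach density 0). -/

set_option autoImplicit false

namespace Pool.Agent.StrA

open Finset Filter Topology

theorem Bdd.of_le {f : ℤ → ℝ} (C : ℝ) (h : ∀ x, |f x| ≤ C) : Bdd f := ⟨C, h⟩

theorem bdd_ind (E : Set ℤ) : Bdd (ind E) := ⟨1, fun x => by
  unfold ind
  by_cases h : x ∈ E <;> simp [h]⟩

theorem Bdd.add {f g : ℤ → ℝ} (hf : Bdd f) (hg : Bdd g) : Bdd fun x => f x + g x := by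
  obtain ⟨C, hC⟩ := hf
  obtain ⟨D, hD⟩ := hg
  exact ⟨C + D, fun x => (abs_add_le _ _).trans (add_le_add (hC x) (hD x))⟩

theorem Bdd.mul {f g : ℤ → ℝ} (hf : Bdd f) (hg : Bdd g) : Bdd fun x => f x * g x := by
  obtain ⟨C, hC⟩ := hf
  obtain ⟨D, hD⟩ := hg
  exact ⟨C * D, fun x => by
    rw [abs_mul]
    exact mul_le_mul (hC x) (hD x) (abs_nonneg _) ((abs_nonneg _).trans (hC x))⟩

theorem Bdd.const (c : ℝ) : Bdd fun _ => c := ⟨|c|, fun _ => le_rfl⟩

theorem Bdd.smul {f : ℤ → ℝ} (c : ℝ) (hf : Bdd f) : Bdd fun x => c * f x := (Bdd.const c).mul hf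

theorem Bdd.shift {f : ℤ → ℝ} (hf : Bdd f) (n : ℤ) : Bdd fun x => f (x - n) := by
  obtain ⟨C, hC⟩ := hf
  exact ⟨C, fun x => hC _⟩

/-- MB1 -/
theorem Mean.sub (M : Mean) {f g : ℤ → ℝ} (hf : Bdd f) (hg : Bdd g) : M.m (fun x => f x - g x) = M.m f - M.m g := by
  have h1 := M.add' f (fun x => (-1) * g x) hf (hg.smul (-1))
  rw [M.smul' (-1) g hg] at h1
  have h2 : (fun x => f x - g x) = fun x => f x + (-1) * g x := by
    funext x
    ring
  rw [h2, h1]
  ring

/-- MB2 -/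
theorem Mean.mono (M : Mean) {f g : ℤ → ℝ} (hf : Bdd f) (hg : Bdd g) (h : ∀ x, f x ≤ g x) : M.m f ≤ M.m g := by
  have h1 := M.sub hg hf
  have hb : Bdd fun x => g x - f x := by
    have h2 := hg.add (hf.smul (-1))
    have h3 : (fun x => g x - f x) = fun x => g x + (-1) * f x := by
      funext x
      ring
    rw [h3]
    exact h2
  have h2 := M.nonneg' _ hb fun x => sub_nonneg.2 (h x)
  linarith

private theorem ma_zero (M : Mean) : M.m (fun _ => 0) = 0 := by
  have h1 := M.smul' 0 (fun _ => 1) (Bdd.const 1)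
  simpa using h1

private theorem ma_const (M : Mean) (c : ℝ) : M.m (fun _ => c) = c := by
  have h1 := M.smul' c (fun _ => 1) (Bdd.const 1)
  rw [M.one', mul_one] at h1
  simpa using h1

private theorem bdd_sum {ι : Type*} (s : Finset ι) (f : ι → ℤ → ℝ) (hf : ∀ i ∈ s, Bdd (f i)) :
    Bdd fun x => ∑ i ∈ s, f i x := by
  classical
  induction s using Finset.induction_on with
  | empty => simpa using Bdd.const 0
  | insert i s hi ih =>
    have h1 := (hf i (mem_insert_self i s)).add (ih fun j hj => hf j (mem_insert_of_mem hj))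
    have h2 : (fun x => ∑ j ∈ insert i s, f j x) = fun x => f i x + ∑ j ∈ s, f j x := by
      funext x
      rw [sum_insert hi]
    rw [h2]
    exact h1

/-- MB3 -/
theorem Mean.sum (M : Mean) {ι : Type*} (s : Finset ι) (f : ι → ℤ → ℝ) (hf : ∀ i ∈ s, Bdd (f i)) :
    M.m (fun x => ∑ i ∈ s, f i x) = ∑ i ∈ s, M.m (f i) := by
  classical
  induction s using Finset.induction_on with
  | empty => simpa using ma_zero M
  | insert i s hi ih =>
    have h1 : (fun x => ∑ j ∈ insert i s, f j x) = fun x => f i x + ∑ j ∈ s, f j x := by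
      funext x
      rw [sum_insert hi]
    rw [h1, sum_insert hi, M.add' _ _ (hf i (mem_insert_self i s))
      (bdd_sum s f fun j hj => hf j (mem_insert_of_mem hj)),
      ih fun j hj => hf j (mem_insert_of_mem hj)]

/-- MB4 -/
theorem Mean.abs_le (M : Mean) {f : ℤ → ℝ} {C : ℝ} (hf : ∀ x, |f x| ≤ C) : |M.m f| ≤ C := by
  have hb : Bdd f := ⟨C, hf⟩
  rw [_root_.abs_le]
  constructor
  · have h1 := M.mono (Bdd.const (-C)) hb fun x => (_root_.abs_le.1 (hf x)).1
    rwa [ma_const] at h1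
  · have h1 := M.mono hb (Bdd.const C) fun x => (_root_.abs_le.1 (hf x)).2
    rwa [ma_const] at h1

/-- MB5: invariant under all multiples of `p` -/
theorem Mean.Inv.mul (M : Mean) {p : ℤ} (hM : M.Inv p) (n : ℤ) : M.Inv (n * p) := by
  have key : ∀ n : ℕ, M.Inv (n * p) := by
    intro n
    induction n with
    | zero =>
      intro f hf
      simp
    | succ n ih =>
      intro f hf
      have h1 := hM (fun x => f (x - n * p)) (hf.shift _)
      have h2 := ih f hf
      rw [h2] at h1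
      rw [← h1]
      congr 1
      funext x
      congr 1
      push_cast
      ring
  obtain ⟨k, rfl | rfl⟩ := n.eq_nat_or_neg
  · exact key k
  · intro f hf
    have h1 := key k (fun x => f (x - -(k : ℤ) * p)) (hf.shift _)
    rw [← h1]
    congr 1
    funext x
    congr 1
    ring

/-- MB6 (Jensen for a positive functional).  PROOF: with `t = M (ω g) ∈ [0, 1]`: `g^k ≥ k t^(k-1) g - (k-1) t^k` pointwise
(Bernoulli / AM-GM for `g, t ≥ 0`), so `M (ω g^k) ≥ k t^(k-1) t - (k-1) t^k M ω ≥ t^k` as `M ω ≤ 1`. -/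
theorem Mean.jensen (M : Mean) {ω g : ℤ → ℝ} (hω : ∀ x, 0 ≤ ω x ∧ ω x ≤ 1) (hg : ∀ x, 0 ≤ g x ∧ g x ≤ 1) (k : ℕ) (hk : 0 < k) :
    (M.m fun x => ω x * g x) ^ k ≤ M.m fun x => ω x * g x ^ k := by
  have hωb : Bdd ω := ⟨1, fun x => by
    rw [_root_.abs_le]
    constructor <;> linarith [hω x]⟩
  have hgb : Bdd g := ⟨1, fun x => by
    rw [_root_.abs_le]
    constructor <;> linarith [hg x]⟩
  obtain ⟨j, rfl⟩ : ∃ j, k = j + 1 := ⟨k - 1, by omega⟩
  have hgk : Bdd fun x => g x ^ (j + 1) := ⟨1, fun x => by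
    rw [abs_of_nonneg (pow_nonneg (hg x).1 _)]
    exact pow_le_one₀ (hg x).1 (hg x).2⟩
  set t := M.m fun x => ω x * g x with ht
  have ht0 : 0 ≤ t := M.nonneg' _ (hωb.mul hgb) fun x => mul_nonneg (hω x).1 (hg x).1
  have key : ∀ (j : ℕ) (y : ℝ), 0 ≤ y → (j + 1) * t ^ j * y - j * t ^ (j + 1) ≤ y ^ (j + 1) := by
    intro j y hy
    induction j with
    | zero => simp
    | succ j ih =>
      have h1 : y ^ (j + 1 + 1) - ((((j + 1 : ℕ) : ℝ) + 1) * t ^ (j + 1) * y
          - ((j + 1 : ℕ) : ℝ) * t ^ (j + 1 + 1))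
          = y * (y ^ (j + 1) - ((j + 1) * t ^ j * y - j * t ^ (j + 1)))
            + (j + 1) * t ^ j * (y - t) ^ 2 := by
        push_cast
        ring
      have h2 : 0 ≤ y * (y ^ (j + 1) - ((j + 1) * t ^ j * y - j * t ^ (j + 1))) :=
        mul_nonneg hy (sub_nonneg.2 ih)
      have h3 : 0 ≤ ((j : ℝ) + 1) * t ^ j * (y - t) ^ 2 := by positivity
      linarith
  have hωone : M.m ω ≤ 1 := by
    have h1 := M.mono hωb (Bdd.const 1) fun x => (hω x).2
    rwa [ma_const] at h1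
  have h1 : M.m (fun x => ((j + 1) * t ^ j) * (ω x * g x) - (j * t ^ (j + 1)) * ω x)
      ≤ M.m fun x => ω x * g x ^ (j + 1) := by
    refine M.mono ?_ (hωb.mul hgk) fun x => ?_
    · have h2 := ((hωb.mul hgb).smul ((j + 1) * t ^ j)).add (hωb.smul (-(j * t ^ (j + 1))))
      have h3 : (fun x => ((j : ℝ) + 1) * t ^ j * (ω x * g x) - j * t ^ (j + 1) * ω x)
          = fun x => ((j : ℝ) + 1) * t ^ j * (ω x * g x) + -(j * t ^ (j + 1)) * ω x := by
        funext x
        ring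
      rw [h3]
      exact h2
    · have h2 := mul_le_mul_of_nonneg_left (key j (g x) (hg x).1) (hω x).1
      calc ((j : ℝ) + 1) * t ^ j * (ω x * g x) - j * t ^ (j + 1) * ω x
          = ω x * ((j + 1) * t ^ j * g x - j * t ^ (j + 1)) := by ring
        _ ≤ _ := h2
  rw [M.sub ((hωb.mul hgb).smul _) (hωb.smul _), M.smul' _ _ (hωb.mul hgb), M.smul' _ _ hωb,
    ← ht] at h1
  have h4 : (j : ℝ) * t ^ (j + 1) * M.m ω ≤ j * t ^ (j + 1) * 1 :=
    mul_le_mul_of_nonneg_left hωone (by positivity)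
  have h5 : ((j : ℝ) + 1) * t ^ j * t = j * t ^ (j + 1) + t ^ (j + 1) := by ring
  linarith

/-- MA1.  PROOF: by invariance `M f = M (x ↦ (1/L) ∑_{j=1..L} f (x + j))`, which is `≤ c` pointwise. -/
theorem Mean.le_of_avg (M : Mean) (hM : M.Inv 1) {f : ℤ → ℝ} (hf : Bdd f) (c : ℝ) (L : ℕ) (hL : 0 < L)
    (h : ∀ a : ℤ, ∑ x ∈ Ioc a (a + L), f x ≤ c * L) : M.m f ≤ c := by
  have hb : ∀ j ∈ Ioc (0 : ℤ) L, Bdd fun x => f (x - -j) := fun j _ => hf.shift (-j)
  have h1 := M.sum (Ioc (0 : ℤ) L) (fun j x => f (x - -j)) hb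
  have h2 : ∀ j ∈ Ioc (0 : ℤ) L, M.m (fun x => f (x - -j)) = M.m f := by
    intro j _
    have h3 := Mean.Inv.mul M hM (-j) f hf
    rwa [mul_one] at h3
  rw [sum_congr rfl h2, sum_const, Int.card_Ioc, sub_zero, Int.toNat_natCast, nsmul_eq_mul] at h1
  have h3 : M.m (fun x => ∑ j ∈ Ioc (0 : ℤ) L, f (x - -j)) ≤ M.m fun _ => c * L := by
    refine M.mono (bdd_sum _ _ hb) (Bdd.const _) fun x => ?_
    refine le_trans (le_of_eq ?_) (h x)
    have h4 : Ioc x (x + L) = (Ioc (0 : ℤ) L).map (addLeftEmbedding x) := by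
      rw [map_add_left_Ioc, add_zero]
    rw [h4, sum_map]
    refine sum_congr rfl fun j _ => ?_
    simp
  rw [h1, ma_const] at h3
  have hL' : (0 : ℝ) < L := by exact_mod_cast hL
  nlinarith

private theorem cnt_eq (E : Set ℤ) (a : ℤ) (L : ℕ) :
    (cnt E a L : ℝ) = ∑ x ∈ Ioc a (a + L), ind E x := by
  classical
  unfold cnt ind
  rw [card_filter]
  push_cast
  refine sum_congr rfl fun x _ => ?_
  rw [Set.indicator_apply]

/-- MA2 -/
theorem Mean.ind_eq_zero (M : Mean) (hM : M.Inv 1) {E : Set ℤ} (hE : ZeroBD E) : M.m (ind E) = 0 := by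
  apply le_antisymm
  · refine le_of_forall_pos_le_add fun ε hε => ?_
    obtain ⟨N, hN⟩ := hE ε hε
    rw [zero_add]
    refine M.le_of_avg hM (bdd_ind E) ε (N + 1) (Nat.succ_pos _) fun a => ?_
    rw [← cnt_eq]
    exact hN a (N + 1) (Nat.le_succ _)
  · refine M.nonneg' _ (bdd_ind E) fun x => ?_
    exact Set.indicator_nonneg (fun _ _ => zero_le_one) x

/-- MA3.  PROOF: `¬ ZeroBD E` gives `ε > 0` and intervals `(a n, a n + L n]` with `L n ≥ n` and more than `ε L n` elements;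
`exists_mean` (file MeanEx, import it) gives `ε ≤ M (ind E)`. -/
theorem exists_mean_pos_of (hex : ∀ (a : ℕ → ℤ) (L : ℕ → ℕ), Tendsto L atTop atTop →
    ∃ M : Mean, M.Inv 1 ∧ ∀ f, Bdd f → ∀ c : ℝ,
      (∀ n, c * L n ≤ ∑ x ∈ Ioc (a n) (a n + L n), f x) → c ≤ M.m f)
    {E : Set ℤ} (hE : ¬ ZeroBD E) : ∃ M : Mean, M.Inv 1 ∧ 0 < M.m (ind E) := by
  unfold ZeroBD at hE
  push Not at hE
  obtain ⟨ε, hε, h⟩ := hE
  choose a L hL h2 using h
  have hLt : Tendsto L atTop atTop := tendsto_atTop_mono hL tendsto_id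
  obtain ⟨M, hM, h3⟩ := hex a L hLt
  refine ⟨M, hM, lt_of_lt_of_le hε (h3 _ (bdd_ind E) ε fun n => ?_)⟩
  rw [← cnt_eq]
  exact (h2 n).le

/-- ZB1 -/
theorem ZeroBD.union {E F : Set ℤ} (hE : ZeroBD E) (hF : ZeroBD F) : ZeroBD (E ∪ F) := by
  classical
  intro ε hε
  obtain ⟨N, hN⟩ := hE (ε / 2) (by positivity)
  obtain ⟨N', hN'⟩ := hF (ε / 2) (by positivity)
  refine ⟨max N N', fun x X hX => ?_⟩
  have h1 := hN x X ((le_max_left _ _).trans hX)
  have h2 := hN' x X ((le_max_right _ _).trans hX)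
  have h3 : (cnt (E ∪ F) x X : ℝ) ≤ cnt E x X + cnt F x X := by
    have h4 : ((Ioc x (x + X)).filter fun n => n ∈ E ∪ F)
        ⊆ ((Ioc x (x + X)).filter fun n => n ∈ E) ∪ ((Ioc x (x + X)).filter fun n => n ∈ F) := by
      intro n hn
      rw [mem_filter] at hn
      rw [mem_union, mem_filter, mem_filter]
      rcases hn.2 with h | h
      · exact Or.inl ⟨hn.1, h⟩
      · exact Or.inr ⟨hn.1, h⟩
    have h5 := (card_le_card h4).trans (card_union_le _ _)
    have h6 : cnt (E ∪ F) x X ≤ cnt E x X + cnt F x X := by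
      unfold cnt
      convert h5
      rfl
    exact_mod_cast h6
  linarith

/-- ZB2 -/
theorem ZeroBD.mono {E F : Set ℤ} (hE : ZeroBD E) (h : F ⊆ E) : ZeroBD F := by
  classical
  intro ε hε
  obtain ⟨N, hN⟩ := hE ε hε
  refine ⟨N, fun x X hX => le_trans ?_ (hN x X hX)⟩
  unfold cnt
  exact_mod_cast card_le_card fun n hn => by
    rw [mem_filter] at hn ⊢
    exact ⟨hn.1, h hn.2⟩

/-- ZB3: a positive mean of a product of indicators minus a set of Banach density zero gives a point -/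
theorem exists_point (M : Mean) (hM : M.Inv 1) {f : ℤ → ℝ} (hf : ∀ x, 0 ≤ f x ∧ f x ≤ 1) (hpos : 0 < M.m f)
    {E : Set ℤ} (hE : ZeroBD E) : ∃ x, 0 < f x ∧ x ∉ E := by
  by_contra hcon
  push Not at hcon
  have hfb : Bdd f := ⟨1, fun x => by
    rw [_root_.abs_le]
    constructor <;> linarith [hf x]⟩
  have h1 := M.mono hfb (bdd_ind E) fun x => by
    by_cases hx : x ∈ E
    · unfold ind
      rw [Set.indicator_of_mem hx]
      exact (hf x).2
    · have h2 : ¬ 0 < f x := fun h => hx (hcon x h)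
      unfold ind
      rw [Set.indicator_of_notMem hx]
      exact not_lt.1 h2
  rw [M.ind_eq_zero hM hE] at h1
  linarith

/-- ZB4: `IsBohr` is closed under intersection.  (`Fin.append α α'`, with the smaller radius one gets a Bohr set inside the
intersection.) -/
theorem IsBohr.inter {U V : Set ℤ} (hU : IsBohr U) (hV : IsBohr V) : ∃ W, IsBohr W ∧ W ⊆ U ∧ W ⊆ V := by
  obtain ⟨m, α, ρ, hρ, rfl⟩ := hU
  obtain ⟨m', α', ρ', hρ', rfl⟩ := hV
  refine ⟨Bohr (Fin.append α α') (min ρ ρ'), ⟨m + m', _, _, lt_min hρ hρ', rfl⟩, ?_, ?_⟩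
  · intro n hn i
    have h1 := hn (Fin.castAdd m' i)
    rw [Fin.append_left] at h1
    exact lt_of_lt_of_le h1 (min_le_left _ _)
  · intro n hn i
    have h1 := hn (Fin.natAdd m i)
    rw [Fin.append_right] at h1
    exact lt_of_lt_of_le h1 (min_le_right _ _)

end Pool.Agent.StrA
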